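import Mathlib
import Pool.Agent.Helper5.PiFew.Win

/-!
Digit products along slowly moving monotone sequences.
-/

set_option autoImplicit false

open Finset Filter Topology

namespace Pool.Agent.Helper5.PiAbs

open Pool.Agent.Helper5.PiFew
open Pool.Agent.H332R2.Lit (e e_add norm_e conj_e norm_one_sub_e)

/-- the weight of a digit in base `B`: `1` for the digits `0` and `B - 1`, `w` for the others -/
noncomputable def psi (B : ℕ) (w : ℝ) (D : ℕ) : ℝ := if D = 0 ∨ D = B - 1 then 1 else w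

/-- the product of the weights of the last `U` digits -/
noncomputable def Psi (B : ℕ) (w : ℝ) (U a : ℕ) : ℝ := ∏ u ∈ range U, psi B w (a / B ^ u % B)

lemma psi_nonneg (B : ℕ) (w : ℝ) (hw : 0 ≤ w) (D : ℕ) : 0 ≤ psi B w D := by
  unfold psi; split_ifs <;> linarith

lemma Psi_nonneg (B : ℕ) (w : ℝ) (hw : 0 ≤ w) (U a : ℕ) : 0 ≤ Psi B w U a :=
  Finset.prod_nonneg fun _ _ => psi_nonneg B w hw _

lemma sum_Ico_mul (B m n : ℕ) (hmn : m ≤ n) (f : ℕ → ℝ) :
    ∑ a ∈ Ico (m * B) (n * B), f a = ∑ a ∈ Ico m n, ∑ e ∈ range B, f (a * B + e) := by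
  induction n, hmn using Nat.le_induction with
  | base => simp
  | succ n hmn ih =>
    rw [Finset.sum_Ico_succ_top hmn, ← ih]
    rw [← Finset.sum_Ico_consecutive f (Nat.mul_le_mul_right B hmn)
      (Nat.mul_le_mul_right B (Nat.le_succ n))]
    congr 1
    rw [Finset.sum_Ico_eq_sum_range]
    have : (n + 1) * B - n * B = B := by
      rw [Nat.add_mul, one_mul]; omega
    rw [this]

lemma Psi_succ (B : ℕ) (hB : 1 ≤ B) (w : ℝ) (U a e : ℕ) (he : e < B) :
    Psi B w (U + 1) (a * B + e) = psi B w e * Psi B w U a := by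
  unfold Psi
  rw [Finset.prod_range_succ']
  rw [mul_comm]
  congr 1
  · congr 1
    rw [pow_zero, Nat.div_one, mul_comm a B, Nat.mul_add_mod, Nat.mod_eq_of_lt he]
  · refine Finset.prod_congr rfl fun u _ => ?_
    congr 2
    rw [pow_succ', ← Nat.div_div_eq_div_mul]
    congr 1
    rw [mul_comm a B, Nat.mul_add_div (by omega), Nat.div_eq_of_lt he, add_zero]

lemma Psi_sum (B : ℕ) (hB : 1 ≤ B) (w : ℝ) (U c : ℕ) :
    ∑ a ∈ Ico (c * B ^ U) ((c + 1) * B ^ U), Psi B w U a = (∑ D ∈ range B, psi B w D) ^ U := by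
  induction U with
  | zero => simp [Psi]
  | succ U ih =>
    rw [pow_succ, ← mul_assoc, ← mul_assoc, sum_Ico_mul _ _ _ (Nat.mul_le_mul_right _ (by omega))]
    rw [pow_succ, ← ih, Finset.sum_mul]
    refine Finset.sum_congr rfl fun a _ => ?_
    rw [Finset.mul_sum]
    refine Finset.sum_congr rfl fun e he => ?_
    rw [Psi_succ B hB w U a e (mem_range.1 he), mul_comm]

lemma psi_sum_le (B : ℕ) (hB : 4 ≤ B) (w : ℝ) (hw1 : w ≤ 1) :
    ∑ D ∈ range B, psi B w D ≤ B * (1 - (1 - w) / 2) := by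
  have h1 : ∑ D ∈ range B, psi B w D = ∑ D ∈ range B, (w + (1 - w) * (if D = 0 ∨ D = B - 1 then 1 else 0)) := by
    refine Finset.sum_congr rfl fun D _ => ?_
    unfold psi
    split_ifs <;> ring
  rw [h1, Finset.sum_add_distrib, Finset.sum_const, card_range, nsmul_eq_mul, ← Finset.mul_sum,
    Finset.sum_boole]
  have h2 : (range B).filter (fun D => D = 0 ∨ D = B - 1) ⊆ {0, B - 1} := by
    intro D hD
    rw [mem_filter] at hD
    rw [mem_insert, mem_singleton]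
    exact hD.2
  have h3 := (card_le_card h2).trans (card_insert_le _ _)
  rw [card_singleton] at h3
  have h4 : (#((range B).filter (fun D => D = 0 ∨ D = B - 1)) : ℝ) ≤ 2 := by exact_mod_cast h3
  have h5 : (4 : ℝ) ≤ B := by exact_mod_cast hB
  have h6 : (1 - w) * (#((range B).filter (fun D => D = 0 ∨ D = B - 1)) : ℝ) ≤ (1 - w) * 2 :=
    mul_le_mul_of_nonneg_left h4 (by linarith)
  nlinarith

/-- a finite set of natural numbers with small differences -/
lemma card_le_of_close (S : Finset ℕ) (L : ℝ) (hL : 0 ≤ L)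
    (h : ∀ r ∈ S, ∀ r' ∈ S, r ≤ r' → ((r' : ℝ) - r) ≤ L) : (#S : ℝ) ≤ L + 1 := by
  rcases S.eq_empty_or_nonempty with rfl | hne
  · simp; linarith
  · have h1 := h _ (S.min'_mem hne) _ (S.max'_mem hne) (S.min'_le_max' hne)
    have h2 : S ⊆ Icc (S.min' hne) (S.max' hne) := by
      intro r hr
      rw [mem_Icc]
      exact ⟨S.min'_le r hr, S.le_max' r hr⟩
    have h3 := card_le_card h2
    rw [Nat.card_Icc] at h3
    have h4 := S.min'_le_max' hne
    have h5 : (#S : ℝ) ≤ ((S.max' hne + 1 - S.min' hne : ℕ) : ℝ) := by exact_mod_cast h3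
    rw [Nat.cast_sub (by omega)] at h5
    push_cast at h5
    linarith

/-- **Digit products along a monotone sequence.** -/
theorem mono_sum (b : ℕ) (hb : 2 ≤ b) (w : ℝ) (hw0 : 0 ≤ w) (hw1 : w ≤ 1) (R k1 U : ℕ)
    (v : ℕ → ℝ) (hv : ∀ r, 0 ≤ v r) (s C : ℝ) (hs : 0 < s) (hC : 0 ≤ C)
    (hlow : ∀ r r', r ≤ r' → r' < R → ((r' : ℝ) - r) * s ≤ |v r' - v r|)
    (hup : ∀ r, r < R → |v r - v 0| ≤ C * (R * s))
    (hk1 : 1 ≤ (b : ℝ) ^ k1 * (R * s)) (hk2 : (b : ℝ) ^ (k1 + 2 * U) * s ≤ 1) :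
    ∑ r ∈ range R, Psi (b ^ 2) w U ⌊(b : ℝ) ^ (k1 + 2 * U) * v r⌋₊ ≤
      2 * (2 * C + 2) * R * (1 - (1 - w) / 2) ^ U := by
  classical
  have hb0 : (0 : ℝ) < b := by exact_mod_cast (by omega : 0 < b)
  set k2 := k1 + 2 * U with hk2d
  set B := b ^ 2 with hB
  have hB4 : 4 ≤ B := by rw [hB]; nlinarith
  have hBR : (B : ℝ) = (b : ℝ) ^ 2 := by rw [hB]; push_cast; rfl
  set a : ℕ → ℕ := fun r => ⌊(b : ℝ) ^ k2 * v r⌋₊ with ha
  -- points in a fine interval
  have hfib : ∀ x : ℕ, (#((range R).filter fun r => a r = x) : ℝ) ≤ 2 * (1 / ((b : ℝ) ^ k2 * s)) := by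
    intro x
    have h1 : 1 ≤ 1 / ((b : ℝ) ^ k2 * s) := by
      rw [le_div_iff₀ (by positivity)]; linarith
    have h2 := card_le_of_close ((range R).filter fun r => a r = x) (1 / ((b : ℝ) ^ k2 * s))
      (by positivity) (by
        intro r hr r' hr' hrr
        rw [mem_filter, mem_range] at hr hr'
        have h3 := hlow r r' hrr hr'.1
        have h4 : |(b : ℝ) ^ k2 * v r' - (b : ℝ) ^ k2 * v r| ≤ 1 := by
          have e1 := Nat.floor_le (mul_nonneg (pow_nonneg hb0.le k2) (hv r))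
          have e2 := Nat.lt_floor_add_one ((b : ℝ) ^ k2 * v r)
          have e3 := Nat.floor_le (mul_nonneg (pow_nonneg hb0.le k2) (hv r'))
          have e4 := Nat.lt_floor_add_one ((b : ℝ) ^ k2 * v r')
          have e5 : ⌊(b : ℝ) ^ k2 * v r⌋₊ = x := hr.2
          have e6 : ⌊(b : ℝ) ^ k2 * v r'⌋₊ = x := hr'.2
          rw [e5] at e1 e2
          rw [e6] at e3 e4
          rw [abs_le]
          constructor <;> linarith
        rw [← mul_sub, abs_mul, abs_of_pos (pow_pos hb0 k2)] at h4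
        rw [le_div_iff₀ (by positivity)]
        calc ((r' : ℝ) - r) * ((b : ℝ) ^ k2 * s) = (b : ℝ) ^ k2 * (((r' : ℝ) - r) * s) := by ring
          _ ≤ (b : ℝ) ^ k2 * |v r' - v r| := by gcongr
          _ ≤ 1 := h4)
    linarith
  -- the coarse intervals
  set c : ℕ → ℕ := fun r => ⌊(b : ℝ) ^ k1 * v r⌋₊ with hc
  have hac : ∀ r, a r / B ^ U = c r := by
    intro r
    simp only [ha, hc]
    rw [← Nat.floor_div_natCast]
    congr 1
    push_cast
    rw [hBR, hk2d, ← pow_mul, pow_add]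
    field_simp
  set E : ℝ := (b : ℝ) ^ k1 * (C * (R * s)) with hE
  have hE0 : 0 ≤ E := by positivity
  have hcc : ∀ r, r < R → ∀ r', r' < R → ((c r' : ℝ) - c r) ≤ 2 * E + 1 := by
    intro r hr r' hr'
    have h1 := hup r hr
    have h2 := hup r' hr'
    have e1 := Nat.lt_floor_add_one ((b : ℝ) ^ k1 * v r)
    have e2 := Nat.floor_le (mul_nonneg (pow_nonneg hb0.le k1) (hv r'))
    have h3 : v r' - v r ≤ 2 * (C * (R * s)) := by
      have := abs_le.1 h1
      have := abs_le.1 h2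
      linarith
    have h4 : (b : ℝ) ^ k1 * (v r' - v r) ≤ (b : ℝ) ^ k1 * (2 * (C * (R * s))) := by gcongr
    simp only [hc]
    rw [hE]
    rw [mul_sub] at h4
    nlinarith
  set S : Finset ℕ := (range R).image c with hS
  have hScard : (#S : ℝ) ≤ 2 * E + 1 + 1 := by
    apply card_le_of_close S (2 * E + 1) (by linarith)
    intro x hx y hy _
    rw [hS, mem_image] at hx hy
    obtain ⟨r, hr, rfl⟩ := hx
    obtain ⟨r', hr', rfl⟩ := hy
    exact hcc r (mem_range.1 hr) r' (mem_range.1 hr')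
  -- the sum
  have h1 : ∑ r ∈ range R, Psi B w U (a r) ≤
      ∑ x ∈ (range R).image a, 2 * (1 / ((b : ℝ) ^ k2 * s)) * Psi B w U x := by
    rw [← Finset.sum_fiberwise_of_maps_to (g := a) (t := (range R).image a)
      (fun r hr => mem_image_of_mem a hr)]
    refine Finset.sum_le_sum fun x _ => ?_
    rw [Finset.sum_congr rfl (g := fun _ => Psi B w U x) (fun r hr => by
      rw [(mem_filter.1 hr).2])]
    rw [Finset.sum_const, nsmul_eq_mul]
    exact mul_le_mul_of_nonneg_right (hfib x) (Psi_nonneg B w hw0 U x)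
  have h2 : (range R).image a ⊆ S.biUnion fun c => Ico (c * B ^ U) ((c + 1) * B ^ U) := by
    intro x hx
    rw [mem_image] at hx
    obtain ⟨r, hr, rfl⟩ := hx
    rw [mem_biUnion]
    refine ⟨c r, mem_image_of_mem c hr, ?_⟩
    rw [mem_Ico, ← hac r]
    have hpos : 0 < B ^ U := Nat.pow_pos (by omega)
    constructor
    · exact Nat.div_mul_le_self _ _
    · rw [add_mul, one_mul]
      exact Nat.lt_div_mul_add hpos
  have h3 : ∑ x ∈ (range R).image a, 2 * (1 / ((b : ℝ) ^ k2 * s)) * Psi B w U x ≤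
      ∑ c ∈ S, ∑ x ∈ Ico (c * B ^ U) ((c + 1) * B ^ U),
        2 * (1 / ((b : ℝ) ^ k2 * s)) * Psi B w U x := by
    calc _ ≤ ∑ x ∈ S.biUnion fun c => Ico (c * B ^ U) ((c + 1) * B ^ U),
          2 * (1 / ((b : ℝ) ^ k2 * s)) * Psi B w U x :=
          Finset.sum_le_sum_of_subset_of_nonneg h2 fun x _ _ => by
            have := Psi_nonneg B w hw0 U x
            positivity
      _ ≤ _ := by
          rw [Finset.sum_biUnion]
          intro x _ y _ hxy
          rw [Function.onFun, Finset.disjoint_left]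
          intro z hz1 hz2
          rw [mem_Ico] at hz1 hz2
          apply hxy
          have g1 : x < y + 1 := by
            by_contra hcon
            push Not at hcon
            have := Nat.mul_le_mul_right (B ^ U) hcon
            omega
          have g2 : y < x + 1 := by
            by_contra hcon
            push Not at hcon
            have := Nat.mul_le_mul_right (B ^ U) hcon
            omega
          omega
  refine (h1.trans h3).trans ?_
  have h4 : ∀ c ∈ S, ∑ x ∈ Ico (c * B ^ U) ((c + 1) * B ^ U),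
      2 * (1 / ((b : ℝ) ^ k2 * s)) * Psi B w U x ≤
      2 * (1 / ((b : ℝ) ^ k2 * s)) * ((B : ℝ) * (1 - (1 - w) / 2)) ^ U := by
    intro c _
    rw [← Finset.mul_sum, Psi_sum B (by omega)]
    apply mul_le_mul_of_nonneg_left _ (by positivity)
    apply pow_le_pow_left₀ (Finset.sum_nonneg fun D _ => psi_nonneg B w hw0 D)
    exact psi_sum_le B hB4 w hw1
  refine (Finset.sum_le_sum h4).trans ?_
  rw [Finset.sum_const, nsmul_eq_mul, mul_pow]
  have h5 : (b : ℝ) ^ k2 = (b : ℝ) ^ k1 * (B : ℝ) ^ U := by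
    rw [hBR, hk2d, ← pow_mul, pow_add]
  rw [h5]
  have hBU : (0 : ℝ) < (B : ℝ) ^ U := by rw [hBR]; positivity
  have hw2 : 0 ≤ (1 - (1 - w) / 2) := by linarith
  have h6 : (#S : ℝ) * (2 * (1 / ((b : ℝ) ^ k1 * (B : ℝ) ^ U * s)) *
      ((B : ℝ) ^ U * (1 - (1 - w) / 2) ^ U)) =
      (#S : ℝ) * (2 / ((b : ℝ) ^ k1 * s)) * (1 - (1 - w) / 2) ^ U := by
    field_simp
  rw [h6]
  have hw3 : 0 ≤ (1 - (1 - w) / 2) ^ U := pow_nonneg hw2 _
  apply mul_le_mul_of_nonneg_right _ hw3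
  have hks : 0 < (b : ℝ) ^ k1 * s := by positivity
  rw [mul_div_assoc', div_le_iff₀ hks]
  have h7 : (#S : ℝ) ≤ (2 * C + 2) * ((b : ℝ) ^ k1 * (R * s)) := by
    refine hScard.trans ?_
    rw [hE]
    nlinarith
  nlinarith

/-- a digit different from `0` and `B - 1` keeps the number away from the integers -/
lemma digit_far (b : ℕ) (hb : 2 ≤ b) (v : ℝ) (hv : 0 ≤ v) (k n : ℕ)
    (h : ¬ (⌊(b : ℝ) ^ (k + 2 + n) * v⌋₊ / b ^ n % b ^ 2 = 0 ∨
      ⌊(b : ℝ) ^ (k + 2 + n) * v⌋₊ / b ^ n % b ^ 2 = b ^ 2 - 1)) :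
    1 / (b : ℝ) ^ 2 ≤ dn ((b : ℝ) ^ k * v) := by
  have hb0 : (0 : ℝ) < b := by exact_mod_cast (by omega : 0 < b)
  have hB : 0 < b ^ 2 := Nat.pow_pos (by omega)
  have h1 : ⌊(b : ℝ) ^ (k + 2 + n) * v⌋₊ / b ^ n = ⌊(b : ℝ) ^ (k + 2) * v⌋₊ := by
    rw [← Nat.floor_div_natCast]
    congr 1
    push_cast
    rw [pow_add (b : ℝ) (k + 2) n]
    field_simp
  rw [h1] at h
  push Not at h
  set t : ℝ := (b : ℝ) ^ k * v with ht
  have ht0 : 0 ≤ t := by positivity
  have h2 : (b : ℝ) ^ (k + 2) * v = (b : ℝ) ^ 2 * t := by rw [ht, pow_add]; ring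
  rw [h2] at h
  set x := ⌊(b : ℝ) ^ 2 * t⌋₊ with hx
  have h3 := Nat.floor_le (by positivity : 0 ≤ (b : ℝ) ^ 2 * t)
  have h4 := Nat.lt_floor_add_one ((b : ℝ) ^ 2 * t)
  rw [← hx] at h3 h4
  have h5 := Nat.div_add_mod x (b ^ 2)
  have h6 := Nat.mod_lt x hB
  set D := x % b ^ 2 with hD
  set z := x / b ^ 2 with hz
  have hxz : (x : ℝ) = (b : ℝ) ^ 2 * z + D := by exact_mod_cast h5.symm
  have hD1 : (1 : ℝ) ≤ D := by exact_mod_cast Nat.one_le_iff_ne_zero.2 h.1
  have hD2 : (D : ℝ) ≤ (b : ℝ) ^ 2 - 2 := by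
    have h7 : D + 2 ≤ b ^ 2 := by
      have := h.2
      omega
    have h8 : ((D + 2 : ℕ) : ℝ) ≤ ((b ^ 2 : ℕ) : ℝ) := by exact_mod_cast h7
    push_cast at h8
    linarith
  -- `t` is between `z + 1/b²` and `z + 1 - 1/b²`
  have hlo : (z : ℝ) + 1 / (b : ℝ) ^ 2 ≤ t := by
    rw [← sub_nonneg]
    have : 0 ≤ (b : ℝ) ^ 2 * (t - (z + 1 / (b : ℝ) ^ 2)) := by
      have e1 : (b : ℝ) ^ 2 * (t - (z + 1 / (b : ℝ) ^ 2)) = (b : ℝ) ^ 2 * t - (b : ℝ) ^ 2 * z - 1 := by
        field_simp; ring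
      rw [e1]; linarith
    exact nonneg_of_mul_nonneg_right this (by positivity)
  have hhi : t ≤ (z : ℝ) + 1 - 1 / (b : ℝ) ^ 2 := by
    rw [← sub_nonneg]
    have : 0 ≤ (b : ℝ) ^ 2 * ((z : ℝ) + 1 - 1 / (b : ℝ) ^ 2 - t) := by
      have e1 : (b : ℝ) ^ 2 * ((z : ℝ) + 1 - 1 / (b : ℝ) ^ 2 - t) =
          (b : ℝ) ^ 2 * z + (b : ℝ) ^ 2 - 1 - (b : ℝ) ^ 2 * t := by
        field_simp
      rw [e1]; linarith
    exact nonneg_of_mul_nonneg_right this (by positivity)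
  unfold dn
  rcases le_or_gt (round t) (z : ℤ) with hr | hr
  · have : ((round t : ℤ) : ℝ) ≤ z := by exact_mod_cast hr
    rw [abs_of_nonneg (by
      have : (0 : ℝ) < 1 / (b : ℝ) ^ 2 := by positivity
      linarith)]
    linarith
  · have : (z : ℝ) + 1 ≤ ((round t : ℤ) : ℝ) := by exact_mod_cast hr
    rw [abs_of_nonpos (by
      have : (0 : ℝ) < 1 / (b : ℝ) ^ 2 := by positivity
      linarith)]
    linarith

/-- the product over the places is at most the digit product -/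
theorem prod_le_Psi (b : ℕ) (hb : 2 ≤ b) (p : ℝ) (hp0 : 0 ≤ p) (hp1 : p ≤ 1 / 2) (P : Finset ℕ)
    (t : ℕ → ℝ) (v : ℝ) (hv : 0 ≤ v) (k1 U : ℕ) (g : ℕ → ℕ)
    (hg : ∀ k, k1 ≤ k → k < k1 + 2 * U → g k ∈ P)
    (hginj : ∀ k k', k1 ≤ k → k < k1 + 2 * U → k1 ≤ k' → k' < k1 + 2 * U → g k = g k' → k = k')
    (ht : ∀ k, k1 ≤ k → k < k1 + 2 * U → dn ((b : ℝ) ^ k * v) - 1 / (2 * (b : ℝ) ^ 2) ≤ dn (t (g k))) :
    ∏ j ∈ P, ‖(p : ℂ) * e (t j) + (1 - p)‖ ≤
      Psi (b ^ 2) (Real.exp (-(p / (b : ℝ) ^ 4))) U ⌊(b : ℝ) ^ (k1 + 2 * U) * v⌋₊ := by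
  classical
  have hb0 : (0 : ℝ) < b := by exact_mod_cast (by omega : 0 < b)
  set G : ℕ → ℕ := fun u => g (k1 + 2 * (U - 1 - u)) with hG
  have hGinj : Set.InjOn G (range U : Set ℕ) := by
    intro u hu u' hu' h
    rw [Finset.mem_coe, mem_range] at hu hu'
    have := hginj _ _ (by omega) (by omega) (by omega) (by omega) h
    omega
  have hGP : (range U).image G ⊆ P := by
    intro j hj
    rw [mem_image] at hj
    obtain ⟨u, hu, rfl⟩ := hj
    rw [mem_range] at hu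
    exact hg _ (by omega) (by omega)
  rw [← Finset.prod_sdiff hGP]
  have h1 : ∏ j ∈ P \ (range U).image G, ‖(p : ℂ) * e (t j) + (1 - p)‖ ≤ 1 :=
    Finset.prod_le_one (fun _ _ => norm_nonneg _) fun j _ => factor_le_one p hp0 (by linarith) _
  have h2 : ∏ j ∈ (range U).image G, ‖(p : ℂ) * e (t j) + (1 - p)‖ ≤
      Psi (b ^ 2) (Real.exp (-(p / (b : ℝ) ^ 4))) U ⌊(b : ℝ) ^ (k1 + 2 * U) * v⌋₊ := by
    rw [Finset.prod_image hGinj]
    unfold Psi
    refine Finset.prod_le_prod (fun _ _ => norm_nonneg _) fun u hu => ?_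
    rw [mem_range] at hu
    unfold psi
    split_ifs with h
    · exact factor_le_one p hp0 (by linarith) _
    · refine (factor_le p hp0 hp1 _).trans ?_
      rw [Real.exp_le_exp]
      have hk : k1 + 2 * U = k1 + 2 * (U - 1 - u) + 2 + 2 * u := by omega
      rw [hk, ← pow_mul] at h
      have h3 := digit_far b hb v hv (k1 + 2 * (U - 1 - u)) (2 * u) h
      have h4 := ht (k1 + 2 * (U - 1 - u)) (by omega) (by omega)
      have h5 : 1 / (2 * (b : ℝ) ^ 2) ≤ dn (t (G u)) := by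
        have h6 : 1 / (b : ℝ) ^ 2 = 1 / (2 * (b : ℝ) ^ 2) + 1 / (2 * (b : ℝ) ^ 2) := by
          field_simp; norm_num
        simp only [hG]
        linarith
      have h6 : (1 / (2 * (b : ℝ) ^ 2)) ^ 2 ≤ dn (t (G u)) ^ 2 :=
        pow_le_pow_left₀ (by positivity) h5 2
      have h7 : p / (b : ℝ) ^ 4 = 4 * p * (1 / (2 * (b : ℝ) ^ 2)) ^ 2 := by
        field_simp; norm_num
      rw [h7]
      have h8 : 4 * p * (1 / (2 * (b : ℝ) ^ 2)) ^ 2 ≤ 4 * p * dn (t (G u)) ^ 2 :=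
        mul_le_mul_of_nonneg_left h6 (by linarith)
      linarith
  have h3 : 0 ≤ ∏ j ∈ (range U).image G, ‖(p : ℂ) * e (t j) + (1 - p)‖ :=
    Finset.prod_nonneg fun _ _ => norm_nonneg _
  nlinarith

end Pool.Agent.Helper5.PiAbs
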