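import Mathlib
import Pool.Agent.Helper5.PiAbs.Psi
import Pool.Agent.Helper5.PiFew.Pair

/-!
The two cases for the powers of a base `g`: an approximate relation `g ^ q ≈ b ^ p₀` which is not too
good, and one which is very good.
-/

set_option autoImplicit false

open Finset Filter Topology

namespace Pool.Agent.Helper5.PiAbs

open Pool.Agent.Helper5.PiFew
open Pool.Agent.H332R2.Lit (e e_add norm_e conj_e norm_one_sub_e)

/-- the phase difference produced by the place `j` (base `b`) at the times `n`, `m` (base `g`) -/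
noncomputable def phg (b g : ℕ) (h : ℤ) (x : ℝ) (n m j : ℕ) : ℝ :=
  h * ((g : ℝ) ^ n - (g : ℝ) ^ m) * x / (b : ℝ) ^ (j + 1)

/-- the factor belonging to a pair of times -/
noncomputable def Fp (b g : ℕ) (h : ℤ) (x p : ℝ) (P : Finset ℕ) (n m : ℕ) : ℝ :=
  ∏ j ∈ P, ‖(p : ℂ) * e (phg b g h x n m j) + (1 - p)‖

lemma factor_dn_neg (p t : ℝ) : ‖(p : ℂ) * e (-t) + (1 - p)‖ = ‖(p : ℂ) * e t + (1 - p)‖ := by
  have h1 : (p : ℂ) * e (-t) + (1 - p) = (starRingEnd ℂ) ((p : ℂ) * e t + (1 - p)) := by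
    rw [map_add, map_mul, conj_e, map_sub, map_one, Complex.conj_ofReal]
  rw [h1, Complex.norm_conj]

lemma Fp_nonneg (b g : ℕ) (h : ℤ) (x p : ℝ) (P : Finset ℕ) (n m : ℕ) : 0 ≤ Fp b g h x p P n m :=
  Finset.prod_nonneg fun _ _ => norm_nonneg _

lemma Fp_le_one (b g : ℕ) (h : ℤ) (x p : ℝ) (hp0 : 0 ≤ p) (hp1 : p ≤ 1 / 2) (P : Finset ℕ)
    (n m : ℕ) : Fp b g h x p P n m ≤ 1 :=
  Finset.prod_le_one (fun _ _ => norm_nonneg _) fun _ _ => factor_le_one p hp0 (by linarith) _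

lemma Fp_symm (b g : ℕ) (h : ℤ) (x p : ℝ) (P : Finset ℕ) (n m : ℕ) :
    Fp b g h x p P n m = Fp b g h x p P m n := by
  unfold Fp
  refine Finset.prod_congr rfl fun j _ => ?_
  have : phg b g h x n m j = -phg b g h x m n j := by unfold phg; ring
  rw [this, factor_dn_neg]

lemma pow_sub_one_abs (ρ η : ℝ) (hη : |ρ - 1| ≤ η) (r : ℕ) :
    (r : ℝ) * η ≤ 1 / 2 → |ρ ^ r - 1| ≤ 2 * r * η := by
  have hη0 : 0 ≤ η := le_trans (abs_nonneg _) hη
  induction r with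
  | zero => intro _; simp
  | succ r ih =>
    intro hr
    push_cast at hr
    have h1 := ih (by nlinarith)
    have h2 : ρ ^ (r + 1) - 1 = ρ * (ρ ^ r - 1) + (ρ - 1) := by ring
    rw [h2]
    have h3 : |ρ| ≤ 1 + η := by
      calc |ρ| = |(ρ - 1) + 1| := by congr 1; ring
        _ ≤ |ρ - 1| + |(1 : ℝ)| := abs_add_le _ _
        _ ≤ _ := by rw [abs_one]; linarith
    calc |ρ * (ρ ^ r - 1) + (ρ - 1)| ≤ |ρ| * |ρ ^ r - 1| + |ρ - 1| := by
          rw [← abs_mul]; exact abs_add_le _ _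
      _ ≤ (1 + η) * (2 * r * η) + η := by
          have : 0 ≤ |ρ ^ r - 1| := abs_nonneg _
          have : (0 : ℝ) ≤ 2 * r * η := by positivity
          gcongr
      _ ≤ 2 * ((r : ℝ) + 1) * η := by nlinarith
      _ = _ := by push_cast; ring

/-- `|v_{r'} - v_r|` for a geometric sequence with a quotient near `1` -/
lemma geom_steps (ρ v0 : ℝ) (hρ : 0 < ρ) (hv0 : 1 ≤ v0) (X : ℕ) (hX : (X : ℝ) * |ρ - 1| ≤ 1 / 4)
    (r r' : ℕ) (hrr : r ≤ r') (hr' : r' < X) :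
    ((r' : ℝ) - r) * (|ρ - 1| / 2) ≤ |v0 * ρ ^ r' - v0 * ρ ^ r| := by
  set η := |ρ - 1| with hη
  have hη0 : 0 ≤ η := abs_nonneg _
  have hXr : ∀ r, r < X → (1 / 2 : ℝ) ≤ ρ ^ r := by
    intro r hr
    have h1 : (r : ℝ) * η ≤ 1 / 4 := by
      have : (r : ℝ) ≤ X := by exact_mod_cast hr.le
      nlinarith
    have h2 := pow_sub_one_abs ρ η le_rfl r (by linarith)
    have h3 := (abs_le.1 h2).1
    linarith
  obtain ⟨k, rfl⟩ := Nat.exists_eq_add_of_le hrr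
  have hk0 : ((r + k : ℕ) : ℝ) - r = k := by push_cast; ring
  rw [hk0]
  rcases le_or_gt 1 ρ with h1 | h1
  · have h2 : η = ρ - 1 := by rw [hη, abs_of_nonneg (by linarith)]
    have h3 := one_add_mul_le_pow (a := ρ - 1) (by linarith) k
    have h4 : 1 + (ρ - 1) = ρ := by ring
    rw [h4] at h3
    have h5 : v0 * ρ ^ (r + k) - v0 * ρ ^ r = v0 * ρ ^ r * (ρ ^ k - 1) := by rw [pow_add]; ring
    rw [h5]
    have h6 := hXr r (by omega)
    have h7 : 1 / 2 ≤ v0 * ρ ^ r := by nlinarith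
    have h8 : (k : ℝ) * η ≤ ρ ^ k - 1 := by rw [h2]; linarith
    have h9 : 0 ≤ (k : ℝ) * η := by positivity
    calc (k : ℝ) * (η / 2) = 1 / 2 * (k * η) := by ring
      _ ≤ v0 * ρ ^ r * (ρ ^ k - 1) := mul_le_mul h7 h8 h9 (by linarith)
      _ ≤ _ := le_abs_self _
  · have h2 : η = 1 - ρ := by rw [hη, abs_of_neg (by linarith)]; ring
    have h3 := one_add_mul_le_pow (a := ρ⁻¹ - 1) (by
      have : 0 < ρ⁻¹ := inv_pos.2 hρ
      linarith) k
    have h4 : 1 + (ρ⁻¹ - 1) = ρ⁻¹ := by ring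
    rw [h4] at h3
    have h5 : v0 * ρ ^ r - v0 * ρ ^ (r + k) = v0 * ρ ^ (r + k) * (ρ⁻¹ ^ k - 1) := by
      rw [pow_add, inv_pow]; field_simp
    rw [abs_sub_comm, h5]
    have h6 := hXr (r + k) hr'
    have h7 : 1 / 2 ≤ v0 * ρ ^ (r + k) := by nlinarith
    have h10 : η ≤ ρ⁻¹ - 1 := by
      rw [h2, ← sub_nonneg]
      have : ρ⁻¹ - 1 - (1 - ρ) = (1 - ρ) ^ 2 / ρ := by field_simp
      rw [this]
      positivity
    have h8 : (k : ℝ) * η ≤ ρ⁻¹ ^ k - 1 := by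
      have : (k : ℝ) * η ≤ k * (ρ⁻¹ - 1) := by gcongr
      linarith
    have h9 : 0 ≤ (k : ℝ) * η := by positivity
    calc (k : ℝ) * (η / 2) = 1 / 2 * (k * η) := by ring
      _ ≤ v0 * ρ ^ (r + k) * (ρ⁻¹ ^ k - 1) := mul_le_mul h7 h8 h9 (by linarith)
      _ ≤ _ := le_abs_self _

/-- **first case**: the relation is not too good -/
theorem case_AB (b g : ℕ) (hb : 2 ≤ b) (hg : 2 ≤ g) (h : ℤ) (x : ℝ) (C2 : ℕ)
    (hC2a : |(h : ℝ) * x| ≤ (b : ℝ) ^ C2) (hC2b : 1 ≤ |(h : ℝ) * x| * (b : ℝ) ^ C2)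
    (X q p₀ : ℕ) (_hX2 : 2 * b ≤ X) (hXC : C2 + 4 ≤ X) (ρ : ℝ)
    (hρ : (g : ℝ) ^ q = (b : ℝ) ^ p₀ * ρ) (hη0 : 0 < |ρ - 1|)
    (hXη : (X : ℝ) * |ρ - 1| ≤ 1 / 4) (hlow : 1 ≤ (b : ℝ) ^ (X ^ 3) * |ρ - 1|)
    (U : ℕ) (hU : b ^ (2 * U + 1) ≤ X) (p : ℝ) (hp0 : 0 ≤ p) (hp1 : p ≤ 1 / 2) (P0 P1 d m0 : ℕ)
    (hd : 1 ≤ d)
    (hn0 : ∀ r < X, (b : ℝ) ^ (P0 + 3 * X ^ 3) ≤ (g : ℝ) ^ (m0 + q * r + d))
    (hn1 : ∀ r < X, (g : ℝ) ^ (m0 + q * r + d) * (b : ℝ) ^ (C2 + 1) ≤ (b : ℝ) ^ P1) :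
    ∑ r ∈ range X, Fp b g h x p (Ico P0 P1) (m0 + q * r + d) (m0 + q * r) ≤
      2 * (2 * (4 * b) + 2) * X * (1 - (1 - Real.exp (-(p / (b : ℝ) ^ 4))) / 2) ^ U := by
  classical
  have hb0 : (0 : ℝ) < b := by exact_mod_cast (by omega : 0 < b)
  have hb2 : (2 : ℝ) ≤ b := by exact_mod_cast hb
  have hg0 : (0 : ℝ) < g := by exact_mod_cast (by omega : 0 < g)
  have hg2 : (2 : ℝ) ≤ g := by exact_mod_cast hg
  have hX0 : (0 : ℝ) < X := by exact_mod_cast (by omega : 0 < X)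
  have hX1 : 1 ≤ X := by omega
  have hX3 : X ≤ X ^ 3 := Nat.le_self_pow (by norm_num) X
  set η := |ρ - 1| with hη
  have hρ0 : 0 < ρ := by
    have h1 : 0 < (b : ℝ) ^ p₀ * ρ := by rw [← hρ]; positivity
    exact pos_of_mul_pos_right h1 (by positivity)
  set W := |(h : ℝ) * x| with hW
  have hW0 : 0 < W := by
    have : 0 < W * (b : ℝ) ^ C2 := by linarith
    exact pos_of_mul_pos_left this (by positivity)
  set z : ℕ → ℝ := fun m => W * ((g : ℝ) ^ d - 1) * (g : ℝ) ^ m with hz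
  have hgd : (g : ℝ) ^ d / 2 ≤ (g : ℝ) ^ d - 1 := by
    have : (2 : ℝ) ≤ (g : ℝ) ^ d := by
      calc (2 : ℝ) ≤ g := hg2
        _ = (g : ℝ) ^ 1 := (pow_one _).symm
        _ ≤ (g : ℝ) ^ d := pow_le_pow_right₀ (by linarith) hd
    linarith
  have hzlow : ∀ m, W * (g : ℝ) ^ (m + d) / 2 ≤ z m := by
    intro m
    simp only [hz]
    rw [pow_add]
    have : 0 < W * (g : ℝ) ^ m := by positivity
    nlinarith
  have hzup : ∀ m, z m ≤ W * (g : ℝ) ^ (m + d) := by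
    intro m
    simp only [hz]
    rw [pow_add]
    have : 0 < W * (g : ℝ) ^ m := by positivity
    nlinarith
  -- the starting point
  have hz1 : 1 ≤ z m0 := by
    have h1 := hn0 0 (by omega)
    rw [mul_zero, add_zero] at h1
    refine le_trans ?_ (hzlow m0)
    have h2 : (2 : ℝ) ≤ W * (g : ℝ) ^ (m0 + d) := by
      calc (2 : ℝ) ≤ b := hb2
        _ = (b : ℝ) ^ 1 * 1 := by ring
        _ ≤ (b : ℝ) ^ 1 * (W * (b : ℝ) ^ C2) := by gcongr
        _ = W * (b : ℝ) ^ (C2 + 1) := by rw [pow_add]; ring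
        _ ≤ W * (b : ℝ) ^ (P0 + 3 * X ^ 3) := by
          apply mul_le_mul_of_nonneg_left _ hW0.le
          apply pow_le_pow_right₀ (by linarith)
          omega
        _ ≤ W * (g : ℝ) ^ (m0 + d) := by gcongr
    linarith
  obtain ⟨J, hJ1, hJ2⟩ := exists_nat_pow_near hz1 (by linarith : (1 : ℝ) < b)
  set v0 : ℝ := z m0 / (b : ℝ) ^ J with hv0
  have hbJ : (0 : ℝ) < (b : ℝ) ^ J := by positivity
  have hv1 : 1 ≤ v0 := by rw [hv0, le_div_iff₀ hbJ]; linarith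
  have hv2 : v0 < b := by
    rw [hv0, div_lt_iff₀ hbJ]
    rw [pow_succ] at hJ2
    linarith
  set v : ℕ → ℝ := fun r => v0 * ρ ^ r with hv
  have hρr : ∀ r, r < X → |ρ ^ r - 1| ≤ 2 * r * η ∧ (1 / 2 : ℝ) ≤ ρ ^ r ∧ ρ ^ r ≤ 3 / 2 := by
    intro r hr
    have h1 : (r : ℝ) * η ≤ 1 / 4 := by
      have : (r : ℝ) ≤ X := by exact_mod_cast hr.le
      nlinarith
    have h2 := pow_sub_one_abs ρ η le_rfl r (by linarith)
    have h3 := abs_le.1 h2
    exact ⟨h2, by linarith, by linarith⟩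
  have hzv : ∀ r, z (m0 + q * r) = (b : ℝ) ^ (J + p₀ * r) * v r := by
    intro r
    simp only [hv, hv0, hz]
    rw [pow_add (g : ℝ) m0, pow_mul, hρ, mul_pow, pow_add (b : ℝ) J, pow_mul]
    field_simp
  -- the window
  set s : ℝ := η / 2 with hs
  have hs0 : 0 < s := by rw [hs]; linarith
  have hex : ∃ k, 1 ≤ (b : ℝ) ^ k * (X * s) := by
    refine ⟨X ^ 3, ?_⟩
    have h1 : (2 : ℝ) ≤ X := by exact_mod_cast (by omega : 2 ≤ X)
    calc (1 : ℝ) ≤ (b : ℝ) ^ (X ^ 3) * η := hlow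
      _ ≤ (b : ℝ) ^ (X ^ 3) * (X * s) := by
        apply mul_le_mul_of_nonneg_left _ (by positivity)
        rw [hs]; nlinarith
  set k1 := Nat.find hex with hk1
  have hk1a : 1 ≤ (b : ℝ) ^ k1 * (X * s) := Nat.find_spec hex
  have hk1b : k1 ≤ X ^ 3 := Nat.find_min' hex (by
    have h1 : (2 : ℝ) ≤ X := by exact_mod_cast (by omega : 2 ≤ X)
    calc (1 : ℝ) ≤ (b : ℝ) ^ (X ^ 3) * η := hlow
      _ ≤ (b : ℝ) ^ (X ^ 3) * (X * s) := by
        apply mul_le_mul_of_nonneg_left _ (by positivity)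
        rw [hs]; nlinarith)
  have hk1c : 1 ≤ k1 := by
    by_contra hcon
    have h0 : k1 = 0 := by omega
    rw [h0, pow_zero, one_mul, hs] at hk1a
    nlinarith
  have hk1d : (b : ℝ) ^ k1 * (X * s) < b := by
    have h1 := Nat.find_min hex (m := k1 - 1) (by omega)
    push Not at h1
    have h2 : (b : ℝ) ^ k1 = b * (b : ℝ) ^ (k1 - 1) := by
      rw [← pow_succ']; congr 1; omega
    calc (b : ℝ) ^ k1 * (X * s) = b * ((b : ℝ) ^ (k1 - 1) * (X * s)) := by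
          rw [h2]; ring
      _ < b * 1 := by gcongr
      _ = b := mul_one _
  have hk2 : (b : ℝ) ^ (k1 + 2 * U) * s ≤ 1 := by
    have h1 : (b : ℝ) ^ (2 * U + 1) ≤ X := by exact_mod_cast hU
    have h2 : (b : ℝ) ^ (k1 + 2 * U) * s * X ≤ X := by
      calc (b : ℝ) ^ (k1 + 2 * U) * s * X = (b : ℝ) ^ (2 * U) * ((b : ℝ) ^ k1 * (X * s)) := by
            rw [pow_add]; ring
        _ ≤ (b : ℝ) ^ (2 * U) * b := by gcongr
        _ = (b : ℝ) ^ (2 * U + 1) := (pow_succ _ _).symm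
        _ ≤ X := h1
    by_contra hcon
    push Not at hcon
    nlinarith
  have hUX : 2 * U + 1 ≤ X := by
    have h1 : 2 * U + 1 < b ^ (2 * U + 1) := Nat.lt_pow_self (by omega)
    omega
  -- the places
  have hplace : ∀ r, r < X → P0 + 2 * X ^ 3 + 1 ≤ J + p₀ * r ∧ J + p₀ * r ≤ P1 := by
    intro r hr
    obtain ⟨-, h1, h2⟩ := hρr r hr
    have hvlow : 1 / 2 ≤ v r := by
      calc (1 : ℝ) / 2 = 1 * (1 / 2) := by ring
        _ ≤ v0 * ρ ^ r := mul_le_mul hv1 h1 (by norm_num) (by linarith)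
    have hvup : v r ≤ 2 * b := by
      calc v r = v0 * ρ ^ r := rfl
        _ ≤ b * (3 / 2) := mul_le_mul hv2.le h2 (by linarith) hb0.le
        _ ≤ 2 * b := by linarith
    have h3 := hzv r
    have hBpos : (0 : ℝ) < (b : ℝ) ^ (J + p₀ * r) := by positivity
    constructor
    · have h4 : (b : ℝ) ^ (P0 + 3 * X ^ 3) ≤ (b : ℝ) ^ (J + p₀ * r + (C2 + 3)) := by
        have h5 : W * (g : ℝ) ^ (m0 + q * r + d) ≤ (b : ℝ) ^ (J + p₀ * r) * (4 * b) := by
          have h6 := hzlow (m0 + q * r)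
          rw [h3] at h6
          have h7 : (b : ℝ) ^ (J + p₀ * r) * v r ≤ (b : ℝ) ^ (J + p₀ * r) * (2 * b) := by gcongr
          linarith
        calc (b : ℝ) ^ (P0 + 3 * X ^ 3) ≤ (g : ℝ) ^ (m0 + q * r + d) := hn0 r hr
          _ = 1 * (g : ℝ) ^ (m0 + q * r + d) := (one_mul _).symm
          _ ≤ (W * (b : ℝ) ^ C2) * (g : ℝ) ^ (m0 + q * r + d) := by gcongr
          _ = (b : ℝ) ^ C2 * (W * (g : ℝ) ^ (m0 + q * r + d)) := by ring
          _ ≤ (b : ℝ) ^ C2 * ((b : ℝ) ^ (J + p₀ * r) * (4 * b)) := by gcongr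
          _ ≤ (b : ℝ) ^ C2 * ((b : ℝ) ^ (J + p₀ * r) * (b : ℝ) ^ 3) := by
            have h6 : (4 : ℝ) ≤ (b : ℝ) ^ 2 := by nlinarith
            have h7 : (4 : ℝ) * b ≤ (b : ℝ) ^ 3 := by
              calc (4 : ℝ) * b ≤ (b : ℝ) ^ 2 * b := by gcongr
                _ = (b : ℝ) ^ 3 := by ring
            gcongr
          _ = _ := by rw [← pow_add, ← pow_add]; congr 1; ring
      have h6 := (pow_le_pow_iff_right₀ (by linarith : (1 : ℝ) < b)).1 h4
      omega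
    · have h4 : (b : ℝ) ^ (J + p₀ * r) ≤ (b : ℝ) ^ P1 := by
        have h5 : (b : ℝ) ^ (J + p₀ * r) * (1 / 2) ≤ (b : ℝ) ^ (J + p₀ * r) * v r := by gcongr
        calc (b : ℝ) ^ (J + p₀ * r) ≤ 2 * z (m0 + q * r) := by rw [h3]; linarith
          _ ≤ 2 * (W * (g : ℝ) ^ (m0 + q * r + d)) := by
            have := hzup (m0 + q * r)
            linarith
          _ ≤ b * ((b : ℝ) ^ C2 * (g : ℝ) ^ (m0 + q * r + d)) := by gcongr
          _ = (g : ℝ) ^ (m0 + q * r + d) * (b : ℝ) ^ (C2 + 1) := by rw [pow_succ]; ring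
          _ ≤ _ := hn1 r hr
      exact (pow_le_pow_iff_right₀ (by linarith : (1 : ℝ) < b)).1 h4
  -- comparison with the digit products
  have hcomp : ∀ r ∈ range X, Fp b g h x p (Ico P0 P1) (m0 + q * r + d) (m0 + q * r) ≤
      Psi (b ^ 2) (Real.exp (-(p / (b : ℝ) ^ 4))) U ⌊(b : ℝ) ^ (k1 + 2 * U) * v r⌋₊ := by
    intro r hr
    rw [mem_range] at hr
    obtain ⟨h1, h2⟩ := hplace r hr
    obtain ⟨-, h3, -⟩ := hρr r hr
    have hvr : 0 ≤ v r := by simp only [hv]; positivity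
    unfold Fp
    apply prod_le_Psi b hb p hp0 hp1 (Ico P0 P1) _ (v r) hvr k1 U (fun k => J + p₀ * r - 1 - k)
    · intro k hk hk'
      rw [mem_Ico]
      constructor
      · omega
      · omega
    · intro k k' h4 h5 h6 h7 h8
      omega
    · intro k hk hk'
      have h4 : phg b g h x (m0 + q * r + d) (m0 + q * r) (J + p₀ * r - 1 - k) = (b : ℝ) ^ k * v r ∨
          phg b g h x (m0 + q * r + d) (m0 + q * r) (J + p₀ * r - 1 - k) = -((b : ℝ) ^ k * v r) := by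
        have h5 : |phg b g h x (m0 + q * r + d) (m0 + q * r) (J + p₀ * r - 1 - k)| =
            (b : ℝ) ^ k * v r := by
          have h6 : phg b g h x (m0 + q * r + d) (m0 + q * r) (J + p₀ * r - 1 - k) =
              (h * x) * (((g : ℝ) ^ d - 1) * (g : ℝ) ^ (m0 + q * r) /
                (b : ℝ) ^ (J + p₀ * r - 1 - k + 1)) := by
            unfold phg
            rw [pow_add (g : ℝ) _ d]
            ring
          have h7 : 0 ≤ ((g : ℝ) ^ d - 1) * (g : ℝ) ^ (m0 + q * r) /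
                (b : ℝ) ^ (J + p₀ * r - 1 - k + 1) := by
            have : 0 < (g : ℝ) ^ d := by positivity
            have : 0 ≤ (g : ℝ) ^ d - 1 := by linarith
            positivity
          rw [h6, abs_mul, abs_of_nonneg h7]
          have h8 : W * (((g : ℝ) ^ d - 1) * (g : ℝ) ^ (m0 + q * r) /
                (b : ℝ) ^ (J + p₀ * r - 1 - k + 1)) = z (m0 + q * r) /
                (b : ℝ) ^ (J + p₀ * r - 1 - k + 1) := by
            simp only [hz]; ring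
          rw [← hW, h8, hzv r]
          have h9 : (b : ℝ) ^ (J + p₀ * r) = (b : ℝ) ^ k * (b : ℝ) ^ (J + p₀ * r - 1 - k + 1) := by
            rw [← pow_add]; congr 1; omega
          rw [h9]
          field_simp
        rcases abs_choice (phg b g h x (m0 + q * r + d) (m0 + q * r) (J + p₀ * r - 1 - k)) with h6 | h6
        · left; rw [← h5, h6]
        · right; rw [← h5, h6, neg_neg]
      have h5 : 0 < 1 / (2 * (b : ℝ) ^ 2) := by positivity
      rcases h4 with h4 | h4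
      · simp only [h4]; linarith
      · simp only [h4, dn_neg]; linarith
  refine (Finset.sum_le_sum hcomp).trans ?_
  have hw0 : 0 ≤ Real.exp (-(p / (b : ℝ) ^ 4)) := (Real.exp_pos _).le
  have hw1 : Real.exp (-(p / (b : ℝ) ^ 4)) ≤ 1 := by
    rw [Real.exp_le_one_iff]
    have : 0 ≤ p / (b : ℝ) ^ 4 := by positivity
    linarith
  apply mono_sum b hb _ hw0 hw1 X k1 U v _ s (4 * b) hs0 (by positivity) _ _ hk1a hk2
  · intro r
    simp only [hv]
    positivity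
  · intro r r' hrr hr'
    exact geom_steps ρ v0 hρ0 hv1 X hXη r r' hrr hr'
  · intro r hr
    obtain ⟨h1, -, -⟩ := hρr r hr
    simp only [hv]
    rw [pow_zero, mul_one]
    have h2 : v0 * ρ ^ r - v0 = v0 * (ρ ^ r - 1) := by ring
    rw [h2, abs_mul, abs_of_nonneg (by linarith : (0 : ℝ) ≤ v0)]
    have h3 : (r : ℝ) ≤ X := by exact_mod_cast hr.le
    calc v0 * |ρ ^ r - 1| ≤ b * (2 * r * η) := by
          apply mul_le_mul hv2.le h1 (abs_nonneg _) hb0.le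
      _ ≤ b * (2 * X * η) := by gcongr
      _ = 4 * b * (X * s) := by rw [hs]; ring

end Pool.Agent.Helper5.PiAbs
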