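import Mathlib
import Pool.Agent.Helper5.PiAbs.Case

/-!
The second case: a very good approximate relation `g ^ q ≈ b ^ p₀`.
-/

set_option autoImplicit false

open Finset Filter Topology

namespace Pool.Agent.Helper5.PiAbs

open Pool.Agent.Helper5.PiFew

lemma base_pow_le (b g : ℕ) (hb : 2 ≤ b) (k : ℕ) : (g : ℝ) ^ k ≤ (b : ℝ) ^ (g * k) := by
  have h1 : g ≤ b ^ g := (Nat.lt_pow_self (by omega)).le
  have h2 : (g : ℝ) ≤ (b : ℝ) ^ g := by exact_mod_cast h1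
  calc (g : ℝ) ^ k ≤ ((b : ℝ) ^ g) ^ k := pow_le_pow_left₀ (Nat.cast_nonneg _) h2 k
    _ = _ := by rw [← pow_mul]

lemma rho_small (b : ℕ) (hb : 2 ≤ b) (X r n : ℕ) (hX : 2 ≤ X) (ρ : ℝ)
    (hgood : |ρ - 1| * (b : ℝ) ^ (X ^ 3) ≤ 1) (hr : r ≤ n) (hn : 2 * (n : ℝ) ≤ (b : ℝ) ^ X) :
    |ρ ^ r - 1| * (b : ℝ) ^ (X ^ 3) ≤ (b : ℝ) ^ X ∧ 1 / 2 ≤ ρ ^ r ∧ ρ ^ r ≤ 3 / 2 := by
  have hb0 : (0 : ℝ) < b := by exact_mod_cast (by omega : 0 < b)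
  have hb2 : (2 : ℝ) ≤ b := by exact_mod_cast hb
  set η := |ρ - 1| with hη
  have hη0 : 0 ≤ η := abs_nonneg _
  have hB : (0 : ℝ) < (b : ℝ) ^ (X ^ 3) := by positivity
  have hX3 : X + 1 ≤ X ^ 3 := by nlinarith [Nat.pow_le_pow_left hX 2]
  have hr' : (r : ℝ) ≤ n := by exact_mod_cast hr
  have h1 : 2 * (r : ℝ) * η * (b : ℝ) ^ (X ^ 3) ≤ (b : ℝ) ^ X := by
    calc 2 * (r : ℝ) * η * (b : ℝ) ^ (X ^ 3) = 2 * r * (η * (b : ℝ) ^ (X ^ 3)) := by ring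
      _ ≤ 2 * n * 1 := by gcongr
      _ ≤ _ := by linarith
  have h2 : 2 * (r : ℝ) * η ≤ 1 / 2 := by
    have h3 : (b : ℝ) ^ X * 2 ≤ (b : ℝ) ^ (X ^ 3) := by
      calc (b : ℝ) ^ X * 2 ≤ (b : ℝ) ^ X * b := by gcongr
        _ = (b : ℝ) ^ (X + 1) := (pow_succ _ _).symm
        _ ≤ _ := pow_le_pow_right₀ (by linarith) hX3
    by_contra hcon
    push Not at hcon
    nlinarith
  have h3 := pow_sub_one_abs ρ η le_rfl r (by linarith)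
  have h4 := abs_le.1 h3
  refine ⟨?_, by linarith, by linarith⟩
  calc |ρ ^ r - 1| * (b : ℝ) ^ (X ^ 3) ≤ 2 * r * η * (b : ℝ) ^ (X ^ 3) := by gcongr
    _ ≤ _ := h1

/-- transfer of the active places -/
lemma transfer (b : ℕ) (hb : 2 ≤ b) (P0 P1 J K l : ℕ) (θ : ℝ) (t : ℕ → ℝ)
    (hl : l ≤ #((range K).filter fun k => 1 / (2 * (b : ℝ)) ≤ dn ((b : ℝ) ^ k * θ)))
    (hJ0 : P0 + K ≤ J) (hJ1 : J ≤ P1)
    (ht : ∀ k < K, |t (J - 1 - k) - (b : ℝ) ^ k * θ| ≤ 1 / (4 * b)) :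
    l ≤ #((Ico P0 P1).filter fun j => 1 / (4 * (b : ℝ)) ≤ dn (t j)) := by
  have hb0 : (0 : ℝ) < b := by exact_mod_cast (by omega : 0 < b)
  refine hl.trans (card_le_card_of_injOn (fun k => J - 1 - k) ?_ ?_)
  · intro k hk
    rw [Finset.mem_coe, mem_filter, mem_range] at hk
    obtain ⟨hk1, hk2⟩ := hk
    rw [Finset.mem_coe, mem_filter, mem_Ico]
    beta_reduce
    refine ⟨⟨by omega, by omega⟩, ?_⟩
    have h1 := dn_sub_le ((b : ℝ) ^ k * θ) (t (J - 1 - k))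
    rw [abs_sub_comm] at h1
    have h2 := ht k hk1
    have h5 : 1 / (2 * (b : ℝ)) = 1 / (4 * b) + 1 / (4 * b) := by field_simp; norm_num
    linarith
  · intro k hk k' hk' hkk
    rw [Finset.mem_coe, mem_filter, mem_range] at hk hk'
    simp only at hkk
    omega

/-- **second case, near pairs** -/
theorem case_near (b g : ℕ) (hb : 2 ≤ b) (hg : 2 ≤ g) (h : ℤ) (hh : h ≠ 0) (x : ℝ) (n₀ : ℕ)
    (H : ∀ q : ℤ, q ≠ 0 → 1 / (2 * |(q : ℝ)|) ^ n₀ ≤ dn (q * x)) (C1 C2 : ℕ)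
    (hC1 : 2 * |(h : ℝ)| ≤ (b : ℝ) ^ C1) (hC2 : |(h : ℝ) * x| ≤ (b : ℝ) ^ C2)
    (X q p₀ l : ℕ) (ρ : ℝ) (hρ : (g : ℝ) ^ q = (b : ℝ) ^ p₀ * ρ)
    (hgood : |ρ - 1| * (b : ℝ) ^ (X ^ 3) ≤ 1) (hq : 1 ≤ q) (hq2 : q ≤ 4 * b * X)
    (hX : 2 * (C2 + 5 * b * g + 5) ≤ X) (hl : 2 * (C1 + 5 * b * g + 2) * (n₀ + 1) ^ l ≤ X)
    (P0 P1 n m : ℕ) (hmn : m < n) (hd : n - m < b * X ^ 2) (hnX : 2 * (n : ℝ) ≤ (b : ℝ) ^ X)
    (hn0 : (b : ℝ) ^ (P0 + 3 * X ^ 3) ≤ (g : ℝ) ^ n)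
    (hn1 : (g : ℝ) ^ n * (b : ℝ) ^ (C2 + 1) ≤ (b : ℝ) ^ P1) :
    l ≤ #((Ico P0 P1).filter fun j => 1 / (4 * (b : ℝ)) ≤ dn (phg b g h x n m j)) := by
  have hb0 : (0 : ℝ) < b := by exact_mod_cast (by omega : 0 < b)
  have hb2 : (2 : ℝ) ≤ b := by exact_mod_cast hb
  have hg0 : (0 : ℝ) < g := by exact_mod_cast (by omega : 0 < g)
  have hg2 : (2 : ℝ) ≤ g := by exact_mod_cast hg
  have hX2 : 2 ≤ X := by omega
  set r := m / q with hr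
  set ms := m % q with hms
  have hm : m = ms + q * r := by rw [hr, hms, Nat.mod_add_div]
  have hmsq : ms < q := Nat.mod_lt _ (by omega)
  have hrn : r ≤ n := by
    have : r ≤ m := Nat.div_le_self _ _
    omega
  obtain ⟨hρ1, hρ2, hρ3⟩ := rho_small b hb X r n hX2 ρ hgood hrn hnX
  set d := n - m with hdd
  have hnm : n = m + d := by omega
  have hd1 : 1 ≤ d := by omega
  -- exponents
  have hXsq : 1 ≤ X ^ 2 := Nat.one_le_pow _ _ (by omega)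
  have hgdq : g * (d + ms) ≤ b * g * X ^ 2 + 4 * (b * g) * X := by
    have h1 : d + ms ≤ b * X ^ 2 + 4 * b * X := by omega
    calc g * (d + ms) ≤ g * (b * X ^ 2 + 4 * b * X) := Nat.mul_le_mul_left _ h1
      _ = _ := by ring
  set A := b * g with hA
  have hA0 : 1 ≤ A := Nat.mul_pos (by omega) (by omega)
  have hAX : A * X ≤ A * X ^ 2 := Nat.mul_le_mul_left _ (by nlinarith)
  have hX' : 2 * (C2 + 5 * A + 5) ≤ X := by rw [hA, ← mul_assoc]; exact hX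
  have hl' : 2 * (C1 + 5 * A + 2) * (n₀ + 1) ^ l ≤ X := by rw [hA, ← mul_assoc]; exact hl
  have hX3 : X ^ 3 = X * X ^ 2 := by ring
  have hbig : 2 * (C2 + A * X ^ 2 + 4 * A * X + X + 3) ≤ X ^ 3 := by
    rw [hX3]
    have h1 : 2 * (C2 + 5 * A + 5) * X ^ 2 ≤ X * X ^ 2 := Nat.mul_le_mul_right _ hX'
    nlinarith
  set K := X ^ 3 / 2 with hK
  have hK2 : 2 * K ≤ X ^ 3 := Nat.mul_div_le _ _
  -- the multiplier
  set Q : ℤ := h * ((g : ℤ) ^ d - 1) * (g : ℤ) ^ ms with hQ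
  have hgd2 : (2 : ℝ) ≤ (g : ℝ) ^ d := by
    calc (2 : ℝ) ≤ g := hg2
      _ = (g : ℝ) ^ 1 := (pow_one _).symm
      _ ≤ (g : ℝ) ^ d := pow_le_pow_right₀ (by linarith) hd1
  have hQ0 : Q ≠ 0 := by
    rw [hQ]
    have h1 : (2 : ℤ) ≤ (g : ℤ) ^ d := by exact_mod_cast hgd2
    have h2 : (g : ℤ) ^ ms ≠ 0 := pow_ne_zero _ (by exact_mod_cast (by omega : g ≠ 0))
    exact mul_ne_zero (mul_ne_zero hh (by omega)) h2
  have hQabs : |(Q : ℝ)| = |(h : ℝ)| * (((g : ℝ) ^ d - 1) * (g : ℝ) ^ ms) := by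
    rw [hQ]
    push_cast
    rw [mul_assoc, abs_mul, abs_of_nonneg (a := ((g : ℝ) ^ d - 1) * (g : ℝ) ^ ms) (by
      have : 0 ≤ (g : ℝ) ^ d - 1 := by linarith
      positivity)]
  have hgg : ((g : ℝ) ^ d - 1) * (g : ℝ) ^ ms ≤ (b : ℝ) ^ (A * X ^ 2 + 4 * A * X) := by
    calc ((g : ℝ) ^ d - 1) * (g : ℝ) ^ ms ≤ (g : ℝ) ^ d * (g : ℝ) ^ ms := by
          gcongr; linarith
      _ = (g : ℝ) ^ (d + ms) := (pow_add _ _ _).symm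
      _ ≤ (b : ℝ) ^ (g * (d + ms)) := base_pow_le b g hb _
      _ ≤ _ := pow_le_pow_right₀ (by linarith) hgdq
  have hQ2 : 2 * |(Q : ℝ)| ≤ (b : ℝ) ^ (C1 + (A * X ^ 2 + 4 * A * X)) := by
    rw [hQabs, pow_add]
    calc 2 * (|(h : ℝ)| * (((g : ℝ) ^ d - 1) * (g : ℝ) ^ ms)) =
          2 * |(h : ℝ)| * (((g : ℝ) ^ d - 1) * (g : ℝ) ^ ms) := by ring
      _ ≤ (b : ℝ) ^ C1 * (b : ℝ) ^ (A * X ^ 2 + 4 * A * X) := by
          have : 0 ≤ (g : ℝ) ^ d - 1 := by linarith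
          gcongr
  have hcount := count b hb (Q * x) n₀ (C1 + (A * X ^ 2 + 4 * A * X))
    (fun k => measure_pow b hb x n₀ H Q hQ0 _ hQ2 k) l K (by
      have h1 : (n₀ + 1) ^ l * (C1 + (A * X ^ 2 + 4 * A * X) + 1) ≤ K := by
        rw [hK, Nat.le_div_iff_mul_le (by norm_num), hX3]
        calc (n₀ + 1) ^ l * (C1 + (A * X ^ 2 + 4 * A * X) + 1) * 2
            ≤ (n₀ + 1) ^ l * ((C1 + 5 * A + 2) * X ^ 2) * 2 := by
              apply Nat.mul_le_mul_right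
              apply Nat.mul_le_mul_left
              nlinarith
          _ = 2 * (C1 + 5 * A + 2) * (n₀ + 1) ^ l * X ^ 2 := by ring
          _ ≤ X * X ^ 2 := Nat.mul_le_mul_right _ hl'
      omega)
  -- the places
  have hgm : (g : ℝ) ^ m = (g : ℝ) ^ ms * ((b : ℝ) ^ (p₀ * r) * ρ ^ r) := by
    rw [hm, pow_add, pow_mul, hρ, mul_pow, ← pow_mul]
  have hJ0 : P0 + K ≤ p₀ * r := by
    have h1 : (b : ℝ) ^ (P0 + 3 * X ^ 3) ≤ (b : ℝ) ^ (A * X ^ 2 + 4 * A * X + 1 + p₀ * r) := by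
      calc (b : ℝ) ^ (P0 + 3 * X ^ 3) ≤ (g : ℝ) ^ n := hn0
        _ = (g : ℝ) ^ (d + ms) * ((b : ℝ) ^ (p₀ * r) * ρ ^ r) := by
          rw [hnm, pow_add, hgm, pow_add]; ring
        _ ≤ (b : ℝ) ^ (g * (d + ms)) * ((b : ℝ) ^ (p₀ * r) * b) := by
          gcongr
          · exact base_pow_le b g hb _
          · linarith
        _ ≤ (b : ℝ) ^ (A * X ^ 2 + 4 * A * X) * ((b : ℝ) ^ (p₀ * r) * b) := by
          gcongr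
          linarith
        _ = _ := by rw [pow_add _ _ (p₀ * r), pow_succ]; ring
    have h2 := (pow_le_pow_iff_right₀ (by linarith : (1 : ℝ) < b)).1 h1
    omega
  have hJ1 : p₀ * r ≤ P1 := by
    have h1 : (b : ℝ) ^ (p₀ * r) ≤ (b : ℝ) ^ P1 := by
      have h2 : (1 : ℝ) ≤ (g : ℝ) ^ ms := one_le_pow₀ (by linarith)
      have h3 : (1 : ℝ) ≤ (b : ℝ) ^ (C2 + 1) := one_le_pow₀ (by linarith)
      have h4 : 0 < (b : ℝ) ^ (p₀ * r) := by positivity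
      have h5 : (b : ℝ) ^ (p₀ * r) ≤ 2 * (g : ℝ) ^ m := by
        rw [hgm]
        have : 1 * ((b : ℝ) ^ (p₀ * r) * (1 / 2)) ≤ (g : ℝ) ^ ms * ((b : ℝ) ^ (p₀ * r) * ρ ^ r) := by
          gcongr
        linarith
      calc (b : ℝ) ^ (p₀ * r) ≤ 2 * (g : ℝ) ^ m := h5
        _ ≤ (g : ℝ) ^ d * (g : ℝ) ^ m := by gcongr
        _ = (g : ℝ) ^ n * 1 := by rw [hnm, pow_add]; ring
        _ ≤ (g : ℝ) ^ n * (b : ℝ) ^ (C2 + 1) := by gcongr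
        _ ≤ _ := hn1
    exact (pow_le_pow_iff_right₀ (by linarith : (1 : ℝ) < b)).1 h1
  apply transfer b hb P0 P1 (p₀ * r) K l (Q * x) _ hcount hJ0 hJ1
  intro k hk
  have h1 : phg b g h x n m (p₀ * r - 1 - k) = (b : ℝ) ^ k * (Q * x) * ρ ^ r := by
    unfold phg
    have h2 : (b : ℝ) ^ (p₀ * r) = (b : ℝ) ^ k * (b : ℝ) ^ (p₀ * r - 1 - k + 1) := by
      rw [← pow_add]; congr 1; omega
    rw [hnm, pow_add (g : ℝ) m d, hgm, h2, hQ]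
    push_cast
    field_simp
  rw [h1]
  have h2 : (b : ℝ) ^ k * (Q * x) * ρ ^ r - (b : ℝ) ^ k * (Q * x) =
      (b : ℝ) ^ k * (Q * x) * (ρ ^ r - 1) := by ring
  have h3 : |(Q : ℝ) * x| ≤ (b : ℝ) ^ (C2 + (A * X ^ 2 + 4 * A * X)) := by
    rw [abs_mul, hQabs, pow_add]
    calc |(h : ℝ)| * (((g : ℝ) ^ d - 1) * (g : ℝ) ^ ms) * |x| =
          |(h : ℝ) * x| * (((g : ℝ) ^ d - 1) * (g : ℝ) ^ ms) := by rw [abs_mul]; ring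
      _ ≤ (b : ℝ) ^ C2 * (b : ℝ) ^ (A * X ^ 2 + 4 * A * X) := by
          have : 0 ≤ ((g : ℝ) ^ d - 1) * (g : ℝ) ^ ms := by
            have : 0 ≤ (g : ℝ) ^ d - 1 := by linarith
            positivity
          gcongr
  rw [h2, abs_mul, abs_mul, abs_of_pos (pow_pos hb0 k), le_div_iff₀ (by positivity)]
  have hB : (0 : ℝ) < (b : ℝ) ^ (X ^ 3) := by positivity
  have h4 : (b : ℝ) ^ k * |(Q : ℝ) * x| * |ρ ^ r - 1| * (4 * b) * (b : ℝ) ^ (X ^ 3) ≤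
      1 * (b : ℝ) ^ (X ^ 3) := by
    have h5 : (4 : ℝ) * b ≤ (b : ℝ) ^ 3 := by
      have : (4 : ℝ) ≤ (b : ℝ) ^ 2 := by nlinarith
      calc (4 : ℝ) * b ≤ (b : ℝ) ^ 2 * b := by gcongr
        _ = (b : ℝ) ^ 3 := by ring
    have h6 : (b : ℝ) ^ k ≤ (b : ℝ) ^ K := pow_le_pow_right₀ (by linarith) hk.le
    calc (b : ℝ) ^ k * |(Q : ℝ) * x| * |ρ ^ r - 1| * (4 * b) * (b : ℝ) ^ (X ^ 3)
        = (b : ℝ) ^ k * |(Q : ℝ) * x| * (|ρ ^ r - 1| * (b : ℝ) ^ (X ^ 3)) * (4 * b) := by ring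
      _ ≤ (b : ℝ) ^ K * (b : ℝ) ^ (C2 + (A * X ^ 2 + 4 * A * X)) * (b : ℝ) ^ X * (b : ℝ) ^ 3 := by
          gcongr
      _ = (b : ℝ) ^ (K + (C2 + (A * X ^ 2 + 4 * A * X)) + X + 3) := by
          rw [← pow_add, ← pow_add, ← pow_add]
      _ ≤ (b : ℝ) ^ (X ^ 3) := by
          apply pow_le_pow_right₀ (by linarith)
          omega
      _ = 1 * (b : ℝ) ^ (X ^ 3) := (one_mul _).symm
  exact le_of_mul_le_mul_right h4 hB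

/-- **second case, distant pairs** -/
theorem case_far (b g : ℕ) (hb : 2 ≤ b) (hg : 2 ≤ g) (h : ℤ) (hh : h ≠ 0) (x : ℝ) (n₀ : ℕ)
    (H : ∀ q : ℤ, q ≠ 0 → 1 / (2 * |(q : ℝ)|) ^ n₀ ≤ dn (q * x)) (C1 C2 : ℕ)
    (hC1 : 2 * |(h : ℝ)| ≤ (b : ℝ) ^ C1) (hC2 : |(h : ℝ) * x| ≤ (b : ℝ) ^ C2)
    (X q p₀ l : ℕ) (ρ : ℝ) (hρ : (g : ℝ) ^ q = (b : ℝ) ^ p₀ * ρ)
    (hgood : |ρ - 1| * (b : ℝ) ^ (X ^ 3) ≤ 1) (hq : 1 ≤ q) (hq2 : q ≤ 4 * b * X)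
    (hX : 2 * (C2 + 5 * b * g + 5) ≤ X) (hl : 2 * (C1 + 5 * b * g + 2) * (n₀ + 1) ^ l ≤ X)
    (P0 P1 n m : ℕ) (hmn : m < n) (hd : b * X ^ 2 ≤ n - m) (hnX : 2 * (n : ℝ) ≤ (b : ℝ) ^ X)
    (hn0 : (b : ℝ) ^ (P0 + 3 * X ^ 3) ≤ (g : ℝ) ^ n)
    (hn1 : (g : ℝ) ^ n * (b : ℝ) ^ (C2 + 1) ≤ (b : ℝ) ^ P1) :
    l ≤ #((Ico P0 P1).filter fun j => 1 / (4 * (b : ℝ)) ≤ dn (phg b g h x n m j)) := by
  have hb0 : (0 : ℝ) < b := by exact_mod_cast (by omega : 0 < b)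
  have hb2 : (2 : ℝ) ≤ b := by exact_mod_cast hb
  have hg0 : (0 : ℝ) < g := by exact_mod_cast (by omega : 0 < g)
  have hg2 : (2 : ℝ) ≤ g := by exact_mod_cast hg
  have hX2 : 2 ≤ X := by omega
  set r := n / q with hr
  set ns := n % q with hns
  have hn : n = ns + q * r := by rw [hr, hns, Nat.mod_add_div]
  have hnsq : ns < q := Nat.mod_lt _ (by omega)
  have hrn : r ≤ n := Nat.div_le_self _ _
  obtain ⟨hρ1, hρ2, hρ3⟩ := rho_small b hb X r n hX2 ρ hgood hrn hnX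
  set d := n - m with hdd
  have hnm : n = m + d := by omega
  have hXsq : X ≤ X ^ 2 := by nlinarith
  have hgq : g * ns ≤ 4 * (b * g) * X := by
    calc g * ns ≤ g * (4 * b * X) := Nat.mul_le_mul_left _ (by omega)
      _ = _ := by ring
  set A := b * g with hA
  have hX' : 2 * (C2 + 5 * A + 5) ≤ X := by rw [hA, ← mul_assoc]; exact hX
  have hl' : 2 * (C1 + 5 * A + 2) * (n₀ + 1) ^ l ≤ X := by rw [hA, ← mul_assoc]; exact hl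
  have hX22 : X ^ 2 = X * X := by ring
  have hbig : 2 * (C2 + 4 * A * X + 5) ≤ X ^ 2 := by
    rw [hX22]
    have h1 : 2 * (C2 + 5 * A + 5) * X ≤ X * X := Nat.mul_le_mul_right _ hX'
    nlinarith
  have hX3 : X ^ 2 + X ≤ X ^ 3 := by nlinarith [Nat.pow_le_pow_left hX2 2]
  have hX3' : X ^ 2 * 2 ≤ X ^ 3 := by
    calc X ^ 2 * 2 ≤ X ^ 2 * X := Nat.mul_le_mul_left _ hX2
      _ = X ^ 3 := by ring
  set K := X ^ 2 / 2 with hK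
  have hK2 : 2 * K ≤ X ^ 2 := Nat.mul_div_le _ _
  set Q : ℤ := h * (g : ℤ) ^ ns with hQ
  have hQ0 : Q ≠ 0 := by
    rw [hQ]
    exact mul_ne_zero hh (pow_ne_zero _ (by exact_mod_cast (by omega : g ≠ 0)))
  have hQabs : |(Q : ℝ)| = |(h : ℝ)| * (g : ℝ) ^ ns := by
    rw [hQ]
    push_cast
    rw [abs_mul, abs_of_nonneg (a := (g : ℝ) ^ ns) (by positivity)]
  have hgg : (g : ℝ) ^ ns ≤ (b : ℝ) ^ (4 * A * X) :=
    (base_pow_le b g hb _).trans (pow_le_pow_right₀ (by linarith) hgq)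
  have hQ2 : 2 * |(Q : ℝ)| ≤ (b : ℝ) ^ (C1 + 4 * A * X) := by
    rw [hQabs, pow_add]
    calc 2 * (|(h : ℝ)| * (g : ℝ) ^ ns) = 2 * |(h : ℝ)| * (g : ℝ) ^ ns := by ring
      _ ≤ (b : ℝ) ^ C1 * (b : ℝ) ^ (4 * A * X) := by gcongr
  have hcount := count b hb (Q * x) n₀ (C1 + 4 * A * X)
    (fun k => measure_pow b hb x n₀ H Q hQ0 _ hQ2 k) l K (by
      have h1 : (n₀ + 1) ^ l * (C1 + 4 * A * X + 1) ≤ K := by
        rw [hK, Nat.le_div_iff_mul_le (by norm_num), hX22]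
        calc (n₀ + 1) ^ l * (C1 + 4 * A * X + 1) * 2
            ≤ (n₀ + 1) ^ l * ((C1 + 5 * A + 2) * X) * 2 := by
              apply Nat.mul_le_mul_right
              apply Nat.mul_le_mul_left
              nlinarith
          _ = 2 * (C1 + 5 * A + 2) * (n₀ + 1) ^ l * X := by ring
          _ ≤ X * X := Nat.mul_le_mul_right _ hl'
      omega)
  have hgn : (g : ℝ) ^ n = (g : ℝ) ^ ns * ((b : ℝ) ^ (p₀ * r) * ρ ^ r) := by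
    conv_lhs => rw [hn]
    rw [pow_add, pow_mul, hρ, mul_pow, ← pow_mul]
  have hJ0 : P0 + K ≤ p₀ * r := by
    have h1 : (b : ℝ) ^ (P0 + 3 * X ^ 3) ≤ (b : ℝ) ^ (4 * A * X + 1 + p₀ * r) := by
      calc (b : ℝ) ^ (P0 + 3 * X ^ 3) ≤ (g : ℝ) ^ n := hn0
        _ = (g : ℝ) ^ ns * ((b : ℝ) ^ (p₀ * r) * ρ ^ r) := hgn
        _ ≤ (b : ℝ) ^ (4 * A * X) * ((b : ℝ) ^ (p₀ * r) * b) := by
          gcongr
          linarith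
        _ = _ := by rw [pow_add _ _ (p₀ * r), pow_succ]; ring
    have h2 := (pow_le_pow_iff_right₀ (by linarith : (1 : ℝ) < b)).1 h1
    omega
  have hJ1 : p₀ * r ≤ P1 := by
    have h1 : (b : ℝ) ^ (p₀ * r) ≤ (b : ℝ) ^ P1 := by
      have h2 : (1 : ℝ) ≤ (g : ℝ) ^ ns := one_le_pow₀ (by linarith)
      have h3 : (b : ℝ) ≤ (b : ℝ) ^ (C2 + 1) := by
        rw [pow_succ]
        have : (1 : ℝ) ≤ (b : ℝ) ^ C2 := one_le_pow₀ (by linarith)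
        nlinarith
      have h4 : 0 < (b : ℝ) ^ (p₀ * r) := by positivity
      have h5 : (b : ℝ) ^ (p₀ * r) ≤ 2 * (g : ℝ) ^ n := by
        rw [hgn]
        have : 1 * ((b : ℝ) ^ (p₀ * r) * (1 / 2)) ≤ (g : ℝ) ^ ns * ((b : ℝ) ^ (p₀ * r) * ρ ^ r) := by
          gcongr
        linarith
      calc (b : ℝ) ^ (p₀ * r) ≤ 2 * (g : ℝ) ^ n := h5
        _ ≤ b * (g : ℝ) ^ n := by gcongr
        _ ≤ (b : ℝ) ^ (C2 + 1) * (g : ℝ) ^ n := by gcongr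
        _ = (g : ℝ) ^ n * (b : ℝ) ^ (C2 + 1) := mul_comm _ _
        _ ≤ _ := hn1
    exact (pow_le_pow_iff_right₀ (by linarith : (1 : ℝ) < b)).1 h1
  apply transfer b hb P0 P1 (p₀ * r) K l (Q * x) _ hcount hJ0 hJ1
  intro k hk
  set κ : ℝ := 1 / (g : ℝ) ^ d with hκ
  have hκ0 : 0 ≤ κ := by rw [hκ]; positivity
  have hκ1 : κ * (b : ℝ) ^ (X ^ 2) ≤ 1 := by
    rw [hκ, one_div, inv_mul_le_iff₀ (by positivity), mul_one]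
    have h1 : (b : ℝ) ≤ (2 : ℝ) ^ b := by exact_mod_cast (Nat.lt_two_pow_self (n := b)).le
    calc (b : ℝ) ^ (X ^ 2) ≤ ((2 : ℝ) ^ b) ^ (X ^ 2) := pow_le_pow_left₀ hb0.le h1 _
      _ = (2 : ℝ) ^ (b * X ^ 2) := by rw [← pow_mul]
      _ ≤ (2 : ℝ) ^ d := pow_le_pow_right₀ (by norm_num) hd
      _ ≤ (g : ℝ) ^ d := pow_le_pow_left₀ (by norm_num) hg2 d
  have h1 : phg b g h x n m (p₀ * r - 1 - k) = (b : ℝ) ^ k * (Q * x) * (ρ ^ r * (1 - κ)) := by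
    unfold phg
    have h2 : (b : ℝ) ^ (p₀ * r) = (b : ℝ) ^ k * (b : ℝ) ^ (p₀ * r - 1 - k + 1) := by
      rw [← pow_add]; congr 1; omega
    have h3 : (g : ℝ) ^ m = (g : ℝ) ^ n * κ := by
      rw [hκ, hnm, pow_add]; field_simp
    rw [h3, hgn, h2, hQ]
    push_cast
    field_simp
  rw [h1]
  have h2 : (b : ℝ) ^ k * (Q * x) * (ρ ^ r * (1 - κ)) - (b : ℝ) ^ k * (Q * x) =
      (b : ℝ) ^ k * (Q * x) * ((ρ ^ r - 1) - ρ ^ r * κ) := by ring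
  have h3 : |(Q : ℝ) * x| ≤ (b : ℝ) ^ (C2 + 4 * A * X) := by
    rw [abs_mul, hQabs, pow_add]
    calc |(h : ℝ)| * (g : ℝ) ^ ns * |x| = |(h : ℝ) * x| * (g : ℝ) ^ ns := by rw [abs_mul]; ring
      _ ≤ (b : ℝ) ^ C2 * (b : ℝ) ^ (4 * A * X) := by gcongr
  have hB : (0 : ℝ) < (b : ℝ) ^ (X ^ 2) := by positivity
  have h4 : |(ρ ^ r - 1) - ρ ^ r * κ| * (b : ℝ) ^ (X ^ 2) ≤ (b : ℝ) ^ 2 := by
    have h5 : |(ρ ^ r - 1) - ρ ^ r * κ| ≤ |ρ ^ r - 1| + 2 * κ := by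
      calc |(ρ ^ r - 1) - ρ ^ r * κ| ≤ |ρ ^ r - 1| + |ρ ^ r * κ| := abs_sub _ _
        _ = |ρ ^ r - 1| + ρ ^ r * κ := by rw [abs_of_nonneg (a := ρ ^ r * κ) (by positivity)]
        _ ≤ _ := by nlinarith
    have h6 : |ρ ^ r - 1| * (b : ℝ) ^ (X ^ 2) ≤ 1 := by
      have h7 : (b : ℝ) ^ (X ^ 2) * (b : ℝ) ^ X ≤ (b : ℝ) ^ (X ^ 3) := by
        rw [← pow_add]
        exact pow_le_pow_right₀ (by linarith) hX3
      have h8 : |ρ ^ r - 1| * (b : ℝ) ^ (X ^ 2) * (b : ℝ) ^ X ≤ 1 * (b : ℝ) ^ X := by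
        calc |ρ ^ r - 1| * (b : ℝ) ^ (X ^ 2) * (b : ℝ) ^ X =
              |ρ ^ r - 1| * ((b : ℝ) ^ (X ^ 2) * (b : ℝ) ^ X) := by ring
          _ ≤ |ρ ^ r - 1| * (b : ℝ) ^ (X ^ 3) := by gcongr
          _ ≤ 1 * (b : ℝ) ^ X := by linarith
      exact le_of_mul_le_mul_right h8 (by positivity)
    calc |(ρ ^ r - 1) - ρ ^ r * κ| * (b : ℝ) ^ (X ^ 2) ≤ (|ρ ^ r - 1| + 2 * κ) * (b : ℝ) ^ (X ^ 2) := by
          gcongr
      _ = |ρ ^ r - 1| * (b : ℝ) ^ (X ^ 2) + 2 * (κ * (b : ℝ) ^ (X ^ 2)) := by ring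
      _ ≤ 1 + 2 * 1 := by gcongr
      _ ≤ (b : ℝ) ^ 2 := by nlinarith
  rw [h2, abs_mul, abs_mul, abs_of_pos (pow_pos hb0 k), le_div_iff₀ (by positivity)]
  have h5 : (b : ℝ) ^ k * |(Q : ℝ) * x| * |(ρ ^ r - 1) - ρ ^ r * κ| * (4 * b) * (b : ℝ) ^ (X ^ 2) ≤
      1 * (b : ℝ) ^ (X ^ 2) := by
    have h5 : (4 : ℝ) * b ≤ (b : ℝ) ^ 3 := by
      have : (4 : ℝ) ≤ (b : ℝ) ^ 2 := by nlinarith
      calc (4 : ℝ) * b ≤ (b : ℝ) ^ 2 * b := by gcongr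
        _ = (b : ℝ) ^ 3 := by ring
    have h6 : (b : ℝ) ^ k ≤ (b : ℝ) ^ K := pow_le_pow_right₀ (by linarith) hk.le
    calc (b : ℝ) ^ k * |(Q : ℝ) * x| * |(ρ ^ r - 1) - ρ ^ r * κ| * (4 * b) * (b : ℝ) ^ (X ^ 2)
        = (b : ℝ) ^ k * |(Q : ℝ) * x| * (|(ρ ^ r - 1) - ρ ^ r * κ| * (b : ℝ) ^ (X ^ 2)) * (4 * b) := by
          ring
      _ ≤ (b : ℝ) ^ K * (b : ℝ) ^ (C2 + 4 * A * X) * (b : ℝ) ^ 2 * (b : ℝ) ^ 3 := by
          gcongr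
      _ = (b : ℝ) ^ (K + (C2 + 4 * A * X) + 2 + 3) := by
          rw [← pow_add, ← pow_add, ← pow_add]
      _ ≤ (b : ℝ) ^ (X ^ 2) := by
          apply pow_le_pow_right₀ (by linarith)
          omega
      _ = 1 * (b : ℝ) ^ (X ^ 2) := (one_mul _).symm
  exact le_of_mul_le_mul_right h5 hB

end Pool.Agent.Helper5.PiAbs
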