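import Mathlib
import Pool.Agent.Helper5.PiAbs.CaseC
import Pool.Agent.Helper5.PiFew.Small

/-!
The second moment for a base `g` which is multiplicatively independent of `b`.
-/

set_option autoImplicit false

open Finset Filter Topology

namespace Pool.Agent.Helper5.PiAbs

open Pool.Agent.Helper5.PiFew
open Pool.Agent.H332R2.Lit (e e_add norm_e conj_e norm_one_sub_e)

/-- pairs are ordered by their difference -/
lemma sum_pairs (a M : ℕ) (F : ℕ → ℕ → ℝ) (hF : ∀ n m, F n m = F m n) :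
    ∑ n ∈ Ico a (a + M), ∑ m ∈ Ico a (a + M), F n m =
      ∑ n ∈ Ico a (a + M), F n n +
        2 * ∑ d ∈ Ico 1 M, ∑ m ∈ Ico a (a + M - d), F (m + d) m := by
  classical
  have h1 : ∀ n ∈ Ico a (a + M), ∑ m ∈ Ico a (a + M), F n m =
      F n n + (∑ m ∈ Ico a n, F n m) + ∑ m ∈ Ico (n + 1) (a + M), F m n := by
    intro n hn
    rw [mem_Ico] at hn
    rw [← Finset.sum_Ico_consecutive (F n) hn.1 hn.2.le, Finset.sum_eq_sum_Ico_succ_bot hn.2]
    rw [Finset.sum_congr rfl (fun m _ => hF n m) (s₁ := Ico (n + 1) (a + M))]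
    ring
  rw [Finset.sum_congr rfl h1, Finset.sum_add_distrib, Finset.sum_add_distrib]
  have h2 : ∑ n ∈ Ico a (a + M), ∑ m ∈ Ico (n + 1) (a + M), F m n =
      ∑ d ∈ Ico 1 M, ∑ m ∈ Ico a (a + M - d), F (m + d) m := by
    have h3 : ∀ n ∈ Ico a (a + M), ∑ m ∈ Ico (n + 1) (a + M), F m n =
        ∑ d ∈ Ico 1 (a + M - n), F (n + d) n := by
      intro n hn
      rw [mem_Ico] at hn
      have h4 := Finset.sum_Ico_add (fun m => F m n) 1 (a + M - n) n
      rw [h4]
      congr 1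
      congr 1
      · omega
      · omega
    rw [Finset.sum_congr rfl h3]
    apply Finset.sum_comm'
    intro n d
    rw [mem_Ico, mem_Ico, mem_Ico, mem_Ico]
    omega
  have h3 : ∑ n ∈ Ico a (a + M), ∑ m ∈ Ico a n, F n m =
      ∑ n ∈ Ico a (a + M), ∑ m ∈ Ico (n + 1) (a + M), F m n := by
    apply Finset.sum_comm'
    intro n m
    rw [mem_Ico, mem_Ico, mem_Ico, mem_Ico]
    omega
  rw [h3, h2]
  ring

/-- sums over long intervals from sums over short ones -/
lemma chunks (f : ℕ → ℝ) (_hf0 : ∀ m, 0 ≤ f m) (hf1 : ∀ m, f m ≤ 1) (Q : ℕ) (hQ : 1 ≤ Q) (E : ℝ)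
    (hE : 0 ≤ E) (a' : ℕ) : ∀ a : ℕ, (∀ c, a ≤ c → c + Q ≤ a' → ∑ m ∈ Ico c (c + Q), f m ≤ E * Q) →
      ∑ m ∈ Ico a a', f m ≤ E * ((a' - a : ℕ) : ℝ) + Q := by
  intro a
  induction hn : a' - a using Nat.strong_induction_on generalizing a with
  | _ n ih =>
    intro h
    rcases Nat.lt_or_ge (a' - a) Q with h1 | h1
    · have h2 : ∑ m ∈ Ico a a', f m ≤ ((a' - a : ℕ) : ℝ) := by
        calc ∑ m ∈ Ico a a', f m ≤ ∑ _m ∈ Ico a a', (1 : ℝ) := Finset.sum_le_sum fun m _ => hf1 m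
          _ = ((a' - a : ℕ) : ℝ) := by rw [Finset.sum_const, Nat.card_Ico, nsmul_eq_mul, mul_one]
      have h3 : ((a' - a : ℕ) : ℝ) ≤ Q := by exact_mod_cast h1.le
      have h4 : 0 ≤ E * ((n : ℕ) : ℝ) := by positivity
      linarith
    · have h2 := ih (a' - (a + Q)) (by omega) (a + Q) rfl (fun c hc1 hc2 => h c (by omega) hc2)
      rw [← Finset.sum_Ico_consecutive f (by omega : a ≤ a + Q) (by omega : a + Q ≤ a')]
      have h3 := h a le_rfl (by omega)
      have h4 : ((a' - (a + Q) : ℕ) : ℝ) = (n : ℝ) - Q := by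
        have : a' - (a + Q) = n - Q := by omega
        rw [this, Nat.cast_sub (by omega)]
      rw [h4] at h2
      nlinarith

/-- a chunk is a union of progressions -/
lemma chunk_classes (f : ℕ → ℝ) (q X c : ℕ) :
    ∑ m ∈ Ico c (c + q * X), f m = ∑ i ∈ range q, ∑ r ∈ range X, f (c + i + q * r) := by
  have h1 := sum_Ico_mul q 0 X (Nat.zero_le _) (fun k => f (c + k))
  rw [zero_mul] at h1
  have h2 : ∑ m ∈ Ico c (c + q * X), f m = ∑ k ∈ Ico 0 (X * q), f (c + k) := by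
    rw [Finset.sum_Ico_eq_sum_range, Finset.range_eq_Ico]
    congr 2
    rw [Nat.add_sub_cancel_left, mul_comm]
  rw [h2, h1, Finset.sum_comm]
  refine Finset.sum_congr rfl fun i _ => ?_
  rw [← Finset.range_eq_Ico]
  refine Finset.sum_congr rfl fun r _ => ?_
  congr 1
  ring

/-- the sum over the pairs of a good interval of times -/
theorem good_pairs (b g : ℕ) (hb : 2 ≤ b) (hg : 2 ≤ g)
    (hind : ∀ u v : ℕ, 1 ≤ u → g ^ u ≠ b ^ v) (h : ℤ) (hh : h ≠ 0) (x : ℝ) (n₀ : ℕ)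
    (H : ∀ q : ℤ, q ≠ 0 → 1 / (2 * |(q : ℝ)|) ^ n₀ ≤ dn (q * x)) (C1 C2 : ℕ)
    (hC1 : 2 * |(h : ℝ)| ≤ (b : ℝ) ^ C1) (hC2 : |(h : ℝ) * x| ≤ (b : ℝ) ^ C2)
    (hC2b : 1 ≤ |(h : ℝ) * x| * (b : ℝ) ^ C2) (X l U : ℕ)
    (hX : 2 * (C2 + 5 * b * g + 5) ≤ X) (hl : 2 * (C1 + 5 * b * g + 2) * (n₀ + 1) ^ l ≤ X)
    (hU : b ^ (2 * U + 1) ≤ X) (p : ℝ) (hp0 : 0 ≤ p) (hp1 : p ≤ 1 / 2) (P0 P1 a M : ℕ)
    (hn0 : ∀ n, a ≤ n → n < a + M → (b : ℝ) ^ (P0 + 3 * X ^ 3) ≤ (g : ℝ) ^ n)
    (hn1 : ∀ n, a ≤ n → n < a + M → (g : ℝ) ^ n * (b : ℝ) ^ (C2 + 1) ≤ (b : ℝ) ^ P1)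
    (hnX : ∀ n, a ≤ n → n < a + M → 2 * (n : ℝ) ≤ (b : ℝ) ^ X) :
    ∑ n ∈ Ico a (a + M), ∑ m ∈ Ico a (a + M), Fp b g h x p (Ico P0 P1) n m ≤
      M + 2 * M * (2 * (2 * (4 * b) + 2) * (1 - (1 - Real.exp (-(p / (b : ℝ) ^ 4))) / 2) ^ U * M +
        4 * b * X ^ 2 + Real.exp (-(p * l / (4 * (b : ℝ) ^ 2))) * M) := by
  classical
  have hb0 : (0 : ℝ) < b := by exact_mod_cast (by omega : 0 < b)
  have hb2 : (2 : ℝ) ≤ b := by exact_mod_cast hb
  have hg1 : (1 : ℝ) < g := by exact_mod_cast (by omega : 1 < g)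
  have hX1 : 1 ≤ X := by omega
  have hX0 : (0 : ℝ) < X := by exact_mod_cast hX1
  set E1 : ℝ := 2 * (2 * (4 * b) + 2) * (1 - (1 - Real.exp (-(p / (b : ℝ) ^ 4))) / 2) ^ U with hE1
  set E2 : ℝ := Real.exp (-(p * l / (4 * (b : ℝ) ^ 2))) with hE2
  have hE2' : 0 ≤ E2 := (Real.exp_pos _).le
  have hE1' : 0 ≤ E1 := by
    rw [hE1]
    have h1 : 0 < Real.exp (-(p / (b : ℝ) ^ 4)) := Real.exp_pos _
    have h2 : 0 ≤ 1 - (1 - Real.exp (-(p / (b : ℝ) ^ 4))) / 2 := by linarith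
    positivity
  rw [sum_pairs a M _ (fun n m => Fp_symm b g h x p (Ico P0 P1) n m)]
  have hdiag : ∑ n ∈ Ico a (a + M), Fp b g h x p (Ico P0 P1) n n ≤ M := by
    calc _ ≤ ∑ _n ∈ Ico a (a + M), (1 : ℝ) :=
          Finset.sum_le_sum fun n _ => Fp_le_one b g h x p hp0 hp1 _ _ _
      _ = M := by
        rw [Finset.sum_const, Nat.card_Ico, nsmul_eq_mul, mul_one]
        congr 1
        omega
  -- an approximate relation
  obtain ⟨p', q', hq'0, hq'1, hq'2⟩ := Real.exists_int_int_abs_mul_sub_le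
    (Real.log g / Real.log b) (n := 4 * b * X) (by
      have := Nat.mul_pos (Nat.mul_pos (by norm_num : 0 < 4) (by omega : 0 < b)) (by omega : 0 < X)
      exact this)
  have hlogb : 0 < Real.log b := Real.log_pos (by linarith)
  have hlogg : 0 < Real.log g := Real.log_pos hg1
  have hlogb2 : Real.log b ≤ b / 2 := by
    have h1 := Real.quadratic_le_exp_of_nonneg (x := (b : ℝ) / 2) (by positivity)
    have h2 : (b : ℝ) ≤ Real.exp (b / 2) := by nlinarith
    calc Real.log b ≤ Real.log (Real.exp (b / 2)) := Real.log_le_log hb0 h2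
      _ = b / 2 := Real.log_exp _
  have hp'0 : 0 ≤ p' := by
    by_contra hcon
    push Not at hcon
    have h1 : (p' : ℝ) ≤ -1 := by exact_mod_cast (by omega : p' ≤ -1)
    have h2 : (0 : ℝ) < q' * (Real.log g / Real.log b) := by
      have : (0 : ℝ) < q' := by exact_mod_cast hq'0
      positivity
    have h3 := (abs_le.1 hq'2).2
    have h4 : (1 : ℝ) / (((4 * b * X : ℕ) : ℝ) + 1) ≤ 1 := by
      rw [div_le_one (by positivity)]
      have : (0 : ℝ) ≤ ((4 * b * X : ℕ) : ℝ) := Nat.cast_nonneg _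
      linarith
    linarith
  obtain ⟨p₀, rfl⟩ := Int.eq_ofNat_of_zero_le hp'0
  obtain ⟨q, rfl⟩ := Int.eq_ofNat_of_zero_le hq'0.le
  have hq1 : 1 ≤ q := by exact_mod_cast hq'0
  have hq2 : q ≤ 4 * b * X := by exact_mod_cast hq'1
  set ρ : ℝ := (g : ℝ) ^ q / (b : ℝ) ^ p₀ with hρd
  have hρ : (g : ℝ) ^ q = (b : ℝ) ^ p₀ * ρ := by rw [hρd]; field_simp
  have hρ0 : 0 < ρ := by rw [hρd]; positivity
  have hρlog : ρ = Real.exp (Real.log b * (((q : ℤ) : ℝ) * (Real.log g / Real.log b) - ((p₀ : ℤ) : ℝ))) := by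
    have h1 : Real.log b * (((q : ℤ) : ℝ) * (Real.log g / Real.log b) - ((p₀ : ℤ) : ℝ)) =
        q * Real.log g - p₀ * Real.log b := by
      push_cast
      field_simp
    rw [h1, Real.exp_sub, hρd]
    congr 1
    · rw [mul_comm, ← Real.rpow_def_of_pos (by linarith : (0 : ℝ) < g), Real.rpow_natCast]
    · rw [mul_comm, ← Real.rpow_def_of_pos hb0, Real.rpow_natCast]
  have hρX : (X : ℝ) * |ρ - 1| ≤ 1 / 4 := by
    set u := Real.log b * (((q : ℤ) : ℝ) * (Real.log g / Real.log b) - ((p₀ : ℤ) : ℝ)) with hu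
    have h1 : |u| ≤ b / 2 * (1 / (4 * b * X)) := by
      rw [hu, abs_mul, abs_of_pos hlogb]
      apply mul_le_mul hlogb2 _ (abs_nonneg _) (by positivity)
      refine hq'2.trans ?_
      apply one_div_le_one_div_of_le (by positivity)
      push_cast
      linarith
    have h2 : (b : ℝ) / 2 * (1 / (4 * b * X)) = 1 / (8 * X) := by field_simp; norm_num
    rw [h2] at h1
    have h3 : 1 / (8 * (X : ℝ)) ≤ 1 := by
      rw [div_le_one (by positivity)]
      have : (1 : ℝ) ≤ X := by exact_mod_cast hX1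
      linarith
    have h4 := Real.abs_exp_sub_one_le (x := u) (h1.trans h3)
    rw [← hρlog] at h4
    calc (X : ℝ) * |ρ - 1| ≤ X * (2 * (1 / (8 * X))) := by gcongr; linarith
      _ = 1 / 4 := by field_simp; norm_num
  have hη0 : 0 < |ρ - 1| := by
    rw [abs_pos, sub_ne_zero]
    intro h1
    rw [h1, mul_one] at hρ
    apply hind q p₀ hq1
    exact_mod_cast hρ
  -- the sum over the pairs of difference `d`
  have hmain : ∀ d ∈ Ico 1 M, ∑ m ∈ Ico a (a + M - d), Fp b g h x p (Ico P0 P1) (m + d) m ≤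
      E1 * M + 4 * b * X ^ 2 + E2 * M := by
    intro d hd
    rw [mem_Ico] at hd
    rcases le_or_gt (|ρ - 1| * (b : ℝ) ^ (X ^ 3)) 1 with hcase | hcase
    · -- very good relation
      have h1 : ∀ m ∈ Ico a (a + M - d), Fp b g h x p (Ico P0 P1) (m + d) m ≤ E2 := by
        intro m hm
        rw [mem_Ico] at hm
        have h2 : l ≤ #((Ico P0 P1).filter fun j => 1 / (4 * (b : ℝ)) ≤
            dn (phg b g h x (m + d) m j)) := by
          rcases Nat.lt_or_ge (m + d - m) (b * X ^ 2) with h3 | h3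
          · exact case_near b g hb hg h hh x n₀ H C1 C2 hC1 hC2 X q p₀ l ρ hρ hcase hq1 hq2 hX hl
              P0 P1 (m + d) m (by omega) h3 (hnX _ (by omega) (by omega))
              (hn0 _ (by omega) (by omega)) (hn1 _ (by omega) (by omega))
          · exact case_far b g hb hg h hh x n₀ H C1 C2 hC1 hC2 X q p₀ l ρ hρ hcase hq1 hq2 hX hl
              P0 P1 (m + d) m (by omega) h3 (hnX _ (by omega) (by omega))
              (hn0 _ (by omega) (by omega)) (hn1 _ (by omega) (by omega))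
        have h3 := prod_le p hp0 hp1 (Ico P0 P1) (phg b g h x (m + d) m) (1 / (4 * b))
          (by positivity) l h2
        have h4 : -(4 * (1 / (4 * (b : ℝ))) ^ 2 * (p * l)) = -(p * l / (4 * (b : ℝ) ^ 2)) := by
          field_simp
        rw [h4] at h3
        exact h3
      have h2 := Finset.sum_le_sum h1
      rw [Finset.sum_const, Nat.card_Ico, nsmul_eq_mul] at h2
      have h3 : ((a + M - d - a : ℕ) : ℝ) ≤ M := by exact_mod_cast (by omega : a + M - d - a ≤ M)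
      have h4 : ((a + M - d - a : ℕ) : ℝ) * E2 ≤ M * E2 := by gcongr
      have h5 : 0 ≤ E1 * M := by positivity
      have h6 : (0 : ℝ) ≤ 4 * b * X ^ 2 := by positivity
      linarith
    · -- the relation is not too good
      have hchunk : ∀ c, a ≤ c → c + q * X ≤ a + M - d →
          ∑ m ∈ Ico c (c + q * X), Fp b g h x p (Ico P0 P1) (m + d) m ≤ E1 * ((q * X : ℕ) : ℝ) := by
        intro c hc1 hc2
        rw [chunk_classes]
        have h1 : ∀ i ∈ range q, ∑ r ∈ range X,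
            Fp b g h x p (Ico P0 P1) (c + i + q * r + d) (c + i + q * r) ≤ E1 * X := by
          intro i hi
          rw [mem_range] at hi
          have hr : ∀ r < X, c + i + q * r + d < a + M := by
            intro r hr
            have h2 : q * r + q ≤ q * X := by
              calc q * r + q = q * (r + 1) := by ring
                _ ≤ q * X := Nat.mul_le_mul_left _ hr
            omega
          have h2 := case_AB b g hb hg h x C2 hC2 hC2b X q p₀ (by nlinarith) (by omega) ρ hρ hη0 hρX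
            (by rw [mul_comm]; exact hcase.le) U hU p hp0 hp1 P0 P1 d (c + i) hd.1
            (fun r hr' => hn0 _ (by omega) (hr r hr')) (fun r hr' => hn1 _ (by omega) (hr r hr'))
          refine h2.trans (le_of_eq ?_)
          rw [hE1]; ring
        refine (Finset.sum_le_sum h1).trans ?_
        rw [Finset.sum_const, card_range, nsmul_eq_mul]
        push_cast
        exact le_of_eq (by ring)
      have h1 := chunks (fun m => Fp b g h x p (Ico P0 P1) (m + d) m)
        (fun m => Fp_nonneg b g h x p _ _ _) (fun m => Fp_le_one b g h x p hp0 hp1 _ _ _) (q * X)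
        (Nat.mul_pos hq1 hX1) E1 hE1' (a + M - d) a hchunk
      have h3 : ((a + M - d - a : ℕ) : ℝ) ≤ M := by exact_mod_cast (by omega : a + M - d - a ≤ M)
      have h4 : E1 * ((a + M - d - a : ℕ) : ℝ) ≤ E1 * M := by gcongr
      have h5 : 0 ≤ E2 * M := by positivity
      have h6 : ((q * X : ℕ) : ℝ) ≤ 4 * b * X ^ 2 := by
        have h7 : q * X ≤ 4 * b * X ^ 2 := by
          calc q * X ≤ 4 * b * X * X := Nat.mul_le_mul_right _ hq2
            _ = 4 * b * X ^ 2 := by ring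
        exact_mod_cast h7
      linarith
  have h1 := Finset.sum_le_sum hmain
  rw [Finset.sum_const, Nat.card_Ico, nsmul_eq_mul] at h1
  have h2 : ((M - 1 : ℕ) : ℝ) ≤ M := by exact_mod_cast Nat.sub_le M 1
  have h3 : (0 : ℝ) ≤ E1 * M + 4 * b * X ^ 2 + E2 * M := by positivity
  have h4 : ((M - 1 : ℕ) : ℝ) * (E1 * M + 4 * b * X ^ 2 + E2 * M) ≤
      M * (E1 * M + 4 * b * X ^ 2 + E2 * M) := by gcongr
  linarith

end Pool.Agent.Helper5.PiAbs
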