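import Mathlib
import Pool.Agent.Helper5.PiAbs.Mom

/-!
Blocks of times in base `g`, and the second moment over them.
-/

set_option autoImplicit false

open Finset Filter Topology

namespace Pool.Agent.Helper5.PiAbs

open Pool.Agent.Helper5.PiFew
open Pool.Agent.H332R2.Lit (e e_add norm_e conj_e norm_one_sub_e)

/-- the first time `n` with `b ^ (i ^ 2) ≤ g ^ n` -/
def tau (b g i : ℕ) : ℕ := Nat.clog g (b ^ (i ^ 2))

lemma pow_le_tau (b g : ℕ) (hg : 2 ≤ g) (i : ℕ) : b ^ (i ^ 2) ≤ g ^ tau b g i :=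
  Nat.le_pow_clog (by omega) _

lemma lt_of_lt_tau (b g i n : ℕ) (h : n < tau b g i) : g ^ n < b ^ (i ^ 2) := by
  by_contra hcon
  push Not at hcon
  have := Nat.clog_le_of_le_pow hcon
  unfold tau at h
  omega

lemma tau_le (b g i n : ℕ) (h : b ^ (i ^ 2) ≤ g ^ n) : tau b g i ≤ n :=
  Nat.clog_le_of_le_pow h

lemma two_pow_mul_ge (b k : ℕ) : b ^ k ≤ 2 ^ (b * k) := by
  rw [pow_mul]
  exact Nat.pow_le_pow_left (Nat.lt_two_pow_self).le k

lemma pow_mul_ge (b g : ℕ) (hg : 2 ≤ g) (k : ℕ) : b ^ k ≤ g ^ (b * k) :=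
  (two_pow_mul_ge b k).trans (Nat.pow_le_pow_left hg _)

lemma tau_mono (b g : ℕ) (hb : 2 ≤ b) (hg : 2 ≤ g) (i : ℕ) : tau b g i ≤ tau b g (i + 1) := by
  apply tau_le
  refine le_trans ?_ (pow_le_tau b g hg (i + 1))
  exact Nat.pow_le_pow_right (by omega) (Nat.pow_le_pow_left (by omega) 2)

lemma tau_zero (b g : ℕ) : tau b g 0 = 0 := by
  unfold tau; simp

lemma tau_succ_le (b g : ℕ) (hg : 2 ≤ g) (i : ℕ) :
    tau b g (i + 1) ≤ tau b g i + b * (2 * i + 1) := by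
  apply tau_le
  rw [show (i + 1) ^ 2 = i ^ 2 + (2 * i + 1) by ring, pow_add b (i ^ 2) (2 * i + 1),
    pow_add g (tau b g i) (b * (2 * i + 1))]
  exact Nat.mul_le_mul (pow_le_tau b g hg i) (pow_mul_ge b g hg _)

lemma tau_le_mul (b g : ℕ) (hg : 2 ≤ g) (i : ℕ) : tau b g i ≤ b * i ^ 2 := by
  apply tau_le
  exact pow_mul_ge b g hg _

lemma sq_le_tau (b g : ℕ) (hb : 2 ≤ b) (hg : 2 ≤ g) (i : ℕ) : i ^ 2 ≤ g * tau b g i := by
  have h1 := pow_le_tau b g hg i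
  have h2 : g ^ tau b g i ≤ b ^ (g * tau b g i) := pow_mul_ge g b hb _
  exact (Nat.pow_le_pow_iff_right (by omega)).1 (h1.trans h2)

/-- the second moment on the `i`-th block is at most `ε` times the square of the length -/
def Smg (b g : ℕ) (x : ℝ) (h : ℤ) (p : ℝ) (i : ℕ) (ε : ℝ) : Prop :=
  ∀ (c y : ℝ) (σ : ℕ → ℝ), (∀ j, σ j = 1 ∨ σ j = -1) →
    ∑ A ∈ (Ico (i ^ 2) (i ^ 2 + (2 * i + 1))).powerset,
      wt p (Ico (i ^ 2) (i ^ 2 + (2 * i + 1))) A *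
      ‖∑ n ∈ Ico (tau b g i) (tau b g (i + 1)), e (h * ((g : ℝ) ^ n *
        (x * (y + ∑ j ∈ A, σ j / (b : ℝ) ^ (j + 1)) + c)))‖ ^ 2 ≤
      ε * ((2 * i + 1 : ℕ) : ℝ) ^ 2

lemma tau_self (b : ℕ) (hb : 2 ≤ b) (i : ℕ) : tau b b i = i ^ 2 := by
  unfold tau
  exact Nat.clog_pow b _ (by omega)

lemma Smg_self (b : ℕ) (hb : 2 ≤ b) (x : ℝ) (h : ℤ) (p : ℝ) (i : ℕ) (ε : ℝ)
    (H : Sm b x h p i ε) : Smg b b x h p i ε := by
  intro c y σ hσ
  rw [tau_self b hb, tau_self b hb, show (i + 1) ^ 2 = i ^ 2 + (2 * i + 1) by ring]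
  exact H c y σ hσ

/-- the moment and the pairs -/
lemma moment_pairs (b g : ℕ) (x : ℝ) (h : ℤ) (p : ℝ) (P S : Finset ℕ)
    (c y : ℝ) (σ : ℕ → ℝ) (hσ : ∀ j, σ j = 1 ∨ σ j = -1) :
    ∑ A ∈ P.powerset, wt p P A * ‖∑ n ∈ S, e (h * ((g : ℝ) ^ n *
        (x * (y + ∑ j ∈ A, σ j / (b : ℝ) ^ (j + 1)) + c)))‖ ^ 2 ≤
      ∑ n ∈ S, ∑ m ∈ S, Fp b g h x p P n m := by
  have h1 := moment p P S (fun n => h * ((g : ℝ) ^ n * (x * y + c)))
    (fun n j => h * (g : ℝ) ^ n * x * σ j / (b : ℝ) ^ (j + 1))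
  have h2 : ∀ A ∈ P.powerset, ∀ n ∈ S, (h : ℝ) * ((g : ℝ) ^ n *
        (x * (y + ∑ j ∈ A, σ j / (b : ℝ) ^ (j + 1)) + c)) =
      h * ((g : ℝ) ^ n * (x * y + c)) + ∑ j ∈ A, h * (g : ℝ) ^ n * x * σ j / (b : ℝ) ^ (j + 1) := by
    intro A _ n _
    have : ∑ j ∈ A, h * (g : ℝ) ^ n * x * σ j / (b : ℝ) ^ (j + 1) =
        h * (g : ℝ) ^ n * x * ∑ j ∈ A, σ j / (b : ℝ) ^ (j + 1) := by
      rw [Finset.mul_sum]
      refine Finset.sum_congr rfl fun j _ => by ring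
    rw [this]
    ring
  have h3 : ∑ A ∈ P.powerset, wt p P A * ‖∑ n ∈ S, e (h * ((g : ℝ) ^ n *
        (x * (y + ∑ j ∈ A, σ j / (b : ℝ) ^ (j + 1)) + c)))‖ ^ 2 =
      ∑ A ∈ P.powerset, wt p P A * ‖∑ n ∈ S, e (h * ((g : ℝ) ^ n * (x * y + c)) +
        ∑ j ∈ A, h * (g : ℝ) ^ n * x * σ j / (b : ℝ) ^ (j + 1))‖ ^ 2 := by
    refine Finset.sum_congr rfl fun A hA => ?_
    rw [Finset.sum_congr rfl fun n hn => by rw [h2 A hA n hn]]
  rw [h3]
  refine h1.trans (le_of_eq ?_)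
  refine Finset.sum_congr rfl fun n _ => Finset.sum_congr rfl fun m _ => ?_
  unfold Fp
  refine Finset.prod_congr rfl fun j _ => ?_
  rcases hσ j with hj | hj
  · congr 4
    rw [hj]; unfold phg; ring
  · rw [← factor_dn_neg]
    congr 4
    rw [hj]; unfold phg; ring

/-- leaving out the times near the ends of a block -/
lemma trim (F : ℕ → ℕ → ℝ) (hF0 : ∀ n m, 0 ≤ F n m) (hF1 : ∀ n m, F n m ≤ 1) (t m e1 e2 : ℕ) :
    ∑ n ∈ Ico t (t + m), ∑ m' ∈ Ico t (t + m), F n m' ≤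
      2 * ((e1 + e2 : ℕ) : ℝ) * m +
      ∑ n ∈ Ico (t + e1) (t + e1 + (m - e1 - e2)), ∑ m' ∈ Ico (t + e1) (t + e1 + (m - e1 - e2)),
        F n m' := by
  classical
  set S := Ico t (t + m) with hS
  set G := Ico (t + e1) (t + e1 + (m - e1 - e2)) with hG
  have hScard : (#S : ℝ) = m := by rw [hS, Nat.card_Ico]; congr 1; omega
  have hcount : (∑ n ∈ S, if n ∈ G then (0 : ℝ) else 1) ≤ ((e1 + e2 : ℕ) : ℝ) := by
    have h1 : ∑ n ∈ S, (if n ∈ G then (0 : ℝ) else 1) = #(S.filter fun n => n ∉ G) := by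
      rw [← Finset.sum_boole]
      refine Finset.sum_congr rfl fun n _ => ?_
      by_cases h : n ∈ G
      · simp [h]
      · simp [h]
    rw [h1]
    have h2 : S.filter (fun n => n ∉ G) ⊆ Ico t (t + e1) ∪ Ico (t + m - e2) (t + m) := by
      intro n hn
      rw [mem_filter, hS, hG, mem_Ico, mem_Ico] at hn
      rw [mem_union, mem_Ico, mem_Ico]
      omega
    have h3 := (card_le_card h2).trans (card_union_le _ _)
    rw [Nat.card_Ico, Nat.card_Ico] at h3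
    exact_mod_cast (by omega : #(S.filter fun n => n ∉ G) ≤ e1 + e2)
  have hterm : ∀ n ∈ S, ∀ m' ∈ S, F n m' ≤ (if n ∈ G then (0 : ℝ) else 1) +
      (if m' ∈ G then (0 : ℝ) else 1) + (if n ∈ G then (if m' ∈ G then F n m' else 0) else 0) := by
    intro n _ m' _
    have := hF0 n m'
    have := hF1 n m'
    split_ifs <;> linarith
  refine (Finset.sum_le_sum fun n hn => Finset.sum_le_sum fun m' hm' => hterm n hn m' hm').trans ?_
  simp only [Finset.sum_add_distrib]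
  have s1 : ∑ n ∈ S, ∑ _m' ∈ S, (if n ∈ G then (0 : ℝ) else 1) ≤ ((e1 + e2 : ℕ) : ℝ) * m := by
    rw [Finset.sum_comm]
    calc _ ≤ ∑ _m' ∈ S, ((e1 + e2 : ℕ) : ℝ) := Finset.sum_le_sum fun _ _ => hcount
      _ = _ := by rw [Finset.sum_const, nsmul_eq_mul, hScard, mul_comm]
  have s2 : ∑ _n ∈ S, ∑ m' ∈ S, (if m' ∈ G then (0 : ℝ) else 1) ≤ ((e1 + e2 : ℕ) : ℝ) * m := by
    calc _ ≤ ∑ _n ∈ S, ((e1 + e2 : ℕ) : ℝ) := Finset.sum_le_sum fun _ _ => hcount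
      _ = _ := by rw [Finset.sum_const, nsmul_eq_mul, hScard, mul_comm]
  have s3 : ∑ n ∈ S, ∑ m' ∈ S, (if n ∈ G then (if m' ∈ G then F n m' else 0) else 0) ≤
      ∑ n ∈ G, ∑ m' ∈ G, F n m' := by
    have h1 : ∀ n ∈ S, ∑ m' ∈ S, (if n ∈ G then (if m' ∈ G then F n m' else 0) else 0) =
        if n ∈ G then ∑ m' ∈ S, (if m' ∈ G then F n m' else 0) else 0 := by
      intro n _
      split_ifs
      · rfl
      · simp
    rw [Finset.sum_congr rfl h1, ← Finset.sum_filter]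
    have hGS : S.filter (fun n => n ∈ G) ⊆ G := by
      intro n hn
      exact (mem_filter.1 hn).2
    calc _ ≤ ∑ n ∈ G, ∑ m' ∈ S, (if m' ∈ G then F n m' else 0) :=
          Finset.sum_le_sum_of_subset_of_nonneg hGS fun n _ _ =>
            Finset.sum_nonneg fun m' _ => by split_ifs <;> simp [hF0]
      _ ≤ _ := by
          refine Finset.sum_le_sum fun n _ => ?_
          rw [← Finset.sum_filter]
          exact Finset.sum_le_sum_of_subset_of_nonneg hGS fun m' _ _ => hF0 _ _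
  linarith

lemma one_sub_exp_ge (t : ℝ) (h0 : 0 ≤ t) (h1 : t ≤ 1) : t / 2 ≤ 1 - Real.exp (-t) := by
  have h3 : Real.exp (-t) ≤ 1 - t / 2 := by
    have h4 := Real.add_one_le_exp t
    have h5 : Real.exp (-t) = 1 / Real.exp t := by rw [Real.exp_neg, one_div]
    rw [h5, div_le_iff₀ (Real.exp_pos _)]
    nlinarith
  linarith

lemma theta_pow (p : ℝ) (b U : ℕ) (hb : 2 ≤ b) (hp0 : 0 ≤ p) (hp1 : p ≤ 1 / 2) :
    (1 - (1 - Real.exp (-(p / (b : ℝ) ^ 4))) / 2) ^ U ≤ Real.exp (-(p * U / (4 * (b : ℝ) ^ 4))) := by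
  have hb0 : (0 : ℝ) < b := by exact_mod_cast (by omega : 0 < b)
  have hb4 : (1 : ℝ) ≤ (b : ℝ) ^ 4 := one_le_pow₀ (by exact_mod_cast (by omega : 1 ≤ b))
  have h1 : p / (b : ℝ) ^ 4 ≤ 1 := by
    rw [div_le_one (by positivity)]; linarith
  have h2 := one_sub_exp_ge (p / (b : ℝ) ^ 4) (by positivity) h1
  have h3 : 1 - (1 - Real.exp (-(p / (b : ℝ) ^ 4))) / 2 ≤ Real.exp (-(p / (4 * (b : ℝ) ^ 4))) := by
    have h4 := Real.add_one_le_exp (-(p / (4 * (b : ℝ) ^ 4)))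
    have h5 : p / (4 * (b : ℝ) ^ 4) = p / (b : ℝ) ^ 4 / 2 / 2 := by field_simp; norm_num
    rw [h5] at h4 ⊢
    linarith
  have h6 : 0 ≤ 1 - (1 - Real.exp (-(p / (b : ℝ) ^ 4))) / 2 := by
    have := Real.exp_pos (-(p / (b : ℝ) ^ 4))
    linarith
  calc (1 - (1 - Real.exp (-(p / (b : ℝ) ^ 4))) / 2) ^ U ≤
        (Real.exp (-(p / (4 * (b : ℝ) ^ 4)))) ^ U := pow_le_pow_left₀ h6 h3 U
    _ = _ := by
        rw [← Real.exp_nat_mul]
        congr 1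
        field_simp

end Pool.Agent.Helper5.PiAbs
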