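import Mathlib
import Pool.Agent.Helper5.PiAbs.Frame

/-!
The second moment is small for long blocks, base `g` multiplicatively independent of `b`.
-/

set_option autoImplicit false

open Finset Filter Topology

namespace Pool.Agent.Helper5.PiAbs

open Pool.Agent.Helper5.PiFew
open Pool.Agent.H332R2.Lit (e e_add norm_e conj_e norm_one_sub_e)

lemma tendsto_pv (p : ℕ → ℝ) (hp0 : ∀ i, 0 ≤ p i) (hp1 : ∀ i, p i ≤ 1 / 2)
    (hp : Tendsto (fun i => p i * Nat.log 2 i) atTop atTop) (v : ℕ → ℕ) (c : ℝ) (hc : 0 < c)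
    (hv : ∀ i, c * (Nat.log 2 i : ℝ) - 2 ≤ v i) :
    Tendsto (fun i => p i * v i) atTop atTop := by
  have h2 : ∀ i : ℕ, p i * Nat.log 2 i * c - 1 ≤ p i * v i := by
    intro i
    have h1 := mul_le_mul_of_nonneg_left (hv i) (hp0 i)
    have := hp1 i
    nlinarith
  refine tendsto_atTop_mono h2 ?_
  apply tendsto_atTop_add_const_right
  exact Tendsto.atTop_mul_const hc hp

lemma exp_small (q : ℕ → ℝ) (hq : Tendsto q atTop atTop) (c ε : ℝ) (hc : 0 < c) (hε : 0 < ε) :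
    ∀ᶠ i in atTop, Real.exp (-(q i / c)) ≤ ε := by
  have h1 : Tendsto (fun i => q i / c) atTop atTop := hq.atTop_div_const hc
  have h2 := Real.tendsto_exp_atBot.comp (tendsto_neg_atTop_atBot.comp h1)
  exact h2.eventually (eventually_le_nhds hε)

lemma pow_ge (k : ℕ) (hk : 9 ≤ k) : 33 * k ≤ 2 ^ k := by
  induction k, hk using Nat.le_induction with
  | base => norm_num
  | succ k hk ih => rw [pow_succ]; omega

lemma final_est (B X L E1 E2 M m e' ε : ℝ) (hB : 2 ≤ B) (hXR : 1 ≤ X) (hL0 : 0 < L)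
    (hE1a : 0 ≤ E1) (hE2a : 0 ≤ E2) (hE1b : E1 ≤ ε / (8 * B ^ 2)) (hE2b : E2 ≤ ε / (8 * B ^ 2))
    (hM0 : 0 ≤ M) (hMR : M ≤ B * L) (hm0 : 0 ≤ m) (hmR : m ≤ B * L) (he0 : 0 ≤ e')
    (heR : e' ≤ X ^ 4) (h11 : 11 * B ^ 2 ≤ X) (hX6 : X ^ 6 ≤ L) (hε : 0 < ε) (h2X : 2 ≤ ε * X) :
    2 * e' * m + (M + 2 * M * (E1 * M + 4 * B * X ^ 2 + E2 * M)) ≤ ε * L ^ 2 := by
  have hB0 : 0 < B := by linarith
  have hX0 : 0 < X := by linarith
  have hε2 : X ^ 5 ≤ ε / 2 * L := by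
    have h2 : 0 ≤ X ^ 5 := by positivity
    have h3 : 2 * X ^ 5 ≤ ε * X * X ^ 5 := mul_le_mul_of_nonneg_right h2X h2
    have h4 : ε * X ^ 6 ≤ ε * L := mul_le_mul_of_nonneg_left hX6 hε.le
    have h5 : ε * X * X ^ 5 = ε * X ^ 6 := by ring
    linarith
  have k1 : 2 * e' * m ≤ 2 * X ^ 4 * (B * L) := by
    apply mul_le_mul (by linarith) hmR hm0 (by positivity)
  have hBL : 0 ≤ B * L := by positivity
  have k2 : M + 2 * M * (E1 * M + 4 * B * X ^ 2 + E2 * M) ≤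
      B * L + 2 * (B * L) * (E1 * (B * L) + 4 * B * X ^ 2 + E2 * (B * L)) := by
    have a1 : E1 * M ≤ E1 * (B * L) := mul_le_mul_of_nonneg_left hMR hE1a
    have a2 : E2 * M ≤ E2 * (B * L) := mul_le_mul_of_nonneg_left hMR hE2a
    have a3 : 0 ≤ E1 * M := mul_nonneg hE1a hM0
    have a4 : 0 ≤ E2 * M := mul_nonneg hE2a hM0
    have a5 : 0 ≤ 4 * B * X ^ 2 := by positivity
    have a6 : 2 * M * (E1 * M + 4 * B * X ^ 2 + E2 * M) ≤
        2 * (B * L) * (E1 * (B * L) + 4 * B * X ^ 2 + E2 * (B * L)) := by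
      apply mul_le_mul (by linarith) (by linarith) (by linarith) (by linarith)
    linarith
  have k3 : 2 * X ^ 4 * (B * L) + (B * L + 2 * (B * L) * (4 * B * X ^ 2)) ≤ X ^ 5 * L := by
    have h1 : 2 * X ^ 4 * B + B + 8 * B ^ 2 * X ^ 2 ≤ X ^ 5 := by
      have h2 : X ^ 2 ≤ X ^ 4 := pow_le_pow_right₀ hXR (by norm_num)
      have h3 : (1 : ℝ) ≤ X ^ 4 := one_le_pow₀ hXR
      have h4 : B ≤ B ^ 2 := by nlinarith
      have h5 : B ≤ B ^ 2 * X ^ 4 := by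
        calc B ≤ B ^ 2 * 1 := by linarith
          _ ≤ B ^ 2 * X ^ 4 := mul_le_mul_of_nonneg_left h3 (by positivity)
      have h6 : 2 * X ^ 4 * B ≤ 2 * X ^ 4 * B ^ 2 := mul_le_mul_of_nonneg_left h4 (by positivity)
      have h7 : 8 * B ^ 2 * X ^ 2 ≤ 8 * B ^ 2 * X ^ 4 := mul_le_mul_of_nonneg_left h2 (by positivity)
      have h8 : 11 * B ^ 2 * X ^ 4 ≤ X * X ^ 4 := mul_le_mul_of_nonneg_right h11 (by positivity)
      have h9 : X * X ^ 4 = X ^ 5 := by ring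
      linarith
    have h2 : 2 * X ^ 4 * (B * L) + (B * L + 2 * (B * L) * (4 * B * X ^ 2)) =
          (2 * X ^ 4 * B + B + 8 * B ^ 2 * X ^ 2) * L := by ring
    rw [h2]
    exact mul_le_mul_of_nonneg_right h1 hL0.le
  have k4 : 2 * (B * L) * (E1 * (B * L) + E2 * (B * L)) ≤ ε / 2 * L ^ 2 := by
    have h1 : 2 * (B * L) * (E1 * (B * L) + E2 * (B * L)) = 2 * B ^ 2 * L ^ 2 * (E1 + E2) := by ring
    have h2 : 2 * B ^ 2 * L ^ 2 * (E1 + E2) ≤
        2 * B ^ 2 * L ^ 2 * (ε / (8 * B ^ 2) + ε / (8 * B ^ 2)) :=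
      mul_le_mul_of_nonneg_left (by linarith) (by positivity)
    have h3 : 2 * B ^ 2 * L ^ 2 * (ε / (8 * B ^ 2) + ε / (8 * B ^ 2)) = ε / 2 * L ^ 2 := by
      field_simp; norm_num
    linarith
  have k5 : X ^ 5 * L ≤ ε / 2 * L ^ 2 := by
    have h1 : X ^ 5 * L ≤ ε / 2 * L * L := mul_le_mul_of_nonneg_right hε2 hL0.le
    have h2 : ε / 2 * L * L = ε / 2 * L ^ 2 := by ring
    linarith
  have k6 : B * L + 2 * (B * L) * (E1 * (B * L) + 4 * B * X ^ 2 + E2 * (B * L)) =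
      (B * L + 2 * (B * L) * (4 * B * X ^ 2)) + 2 * (B * L) * (E1 * (B * L) + E2 * (B * L)) := by
    ring
  rw [k6] at k2
  have k7 : ε * L ^ 2 = ε / 2 * L ^ 2 + ε / 2 * L ^ 2 := by ring
  rw [k7]
  linarith

theorem small_indep (b g : ℕ) (hb : 2 ≤ b) (hg : 2 ≤ g)
    (hind : ∀ u v : ℕ, 1 ≤ u → g ^ u ≠ b ^ v) (x : ℝ) (hx : x ≠ 0) (n₀ : ℕ)
    (H : ∀ q : ℤ, q ≠ 0 → 1 / (2 * |(q : ℝ)|) ^ n₀ ≤ dn (q * x)) (h : ℤ) (hh : h ≠ 0)
    (p : ℕ → ℝ) (hp0 : ∀ i, 0 ≤ p i) (hp1 : ∀ i, p i ≤ 1 / 2)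
    (hp : Tendsto (fun i => p i * Nat.log 2 i) atTop atTop) (ε : ℝ) (hε : 0 < ε) :
    ∀ᶠ i : ℕ in atTop, Smg b g x h (p i) i ε := by
  have hb0 : (0 : ℝ) < b := by exact_mod_cast (by omega : 0 < b)
  have hb2 : (2 : ℝ) ≤ b := by exact_mod_cast hb
  have hhx : 0 < |(h : ℝ) * x| := abs_pos.2 (mul_ne_zero (by exact_mod_cast hh) hx)
  obtain ⟨C1, hC1⟩ := exists_le_pow b hb (2 * |(h : ℝ)|)
  obtain ⟨C2, hC2, hC2b⟩ : ∃ C2 : ℕ, |(h : ℝ) * x| ≤ (b : ℝ) ^ C2 ∧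
      1 ≤ |(h : ℝ) * x| * (b : ℝ) ^ C2 := by
    obtain ⟨Ca, hCa⟩ := exists_le_pow b hb |(h : ℝ) * x|
    obtain ⟨Cb, hCb⟩ := exists_le_pow b hb (1 / |(h : ℝ) * x|)
    refine ⟨Ca + Cb, ?_, ?_⟩
    · exact hCa.trans (pow_le_pow_right₀ (by linarith) (by omega))
    · rw [div_le_iff₀ hhx] at hCb
      calc (1 : ℝ) ≤ (b : ℝ) ^ Cb * |(h : ℝ) * x| := hCb
        _ ≤ (b : ℝ) ^ (Ca + Cb) * |(h : ℝ) * x| := by
          gcongr
          · linarith
          · omega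
        _ = _ := mul_comm _ _
  set w := n₀ + 1 with hw
  have hw2 : n₀ + 1 ≤ 2 ^ w := by rw [hw]; exact (Nat.lt_two_pow_self).le
  set k : ℕ → ℕ := fun i => Nat.log 2 i / 16 with hkd
  set l : ℕ → ℕ := fun i => k i / (2 * w) with hld
  set U : ℕ → ℕ := fun i => (Nat.log b (2 ^ k i) - 1) / 2 with hUd
  have hk : Tendsto k atTop atTop := by
    rw [tendsto_atTop]
    intro m
    filter_upwards [tendsto_atTop.1 tendsto_log2 (16 * m)] with i hi
    simp only [hkd]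
    omega
  have hkl : ∀ i, (Nat.log 2 i : ℝ) / 16 - 1 ≤ k i := by
    intro i
    have h4 := Nat.lt_div_mul_add (a := Nat.log 2 i) (b := 16) (by omega)
    have h5 : (Nat.log 2 i : ℝ) < (k i : ℝ) * 16 + 16 := by
      simp only [hkd]; exact_mod_cast h4
    linarith
  have hlv : ∀ i, 1 / (32 * (w : ℝ)) * (Nat.log 2 i : ℝ) - 2 ≤ l i := by
    intro i
    have hw0 : (1 : ℝ) ≤ w := by exact_mod_cast (by omega : 1 ≤ w)
    have h4 := Nat.lt_div_mul_add (a := k i) (b := 2 * w) (by omega)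
    have h5 : (k i : ℝ) < (l i : ℝ) * (2 * w) + 2 * w := by
      simp only [hld]; exact_mod_cast h4
    have h6 := hkl i
    have h7 : 1 / (32 * (w : ℝ)) * (Nat.log 2 i : ℝ) = (Nat.log 2 i : ℝ) / 16 / (2 * w) := by
      field_simp; ring
    rw [h7, sub_le_iff_le_add, div_le_iff₀ (by positivity)]
    nlinarith
  have hUv : ∀ i, 1 / (32 * (b : ℝ)) * (Nat.log 2 i : ℝ) - 2 ≤ U i := by
    intro i
    have h3 : k i < b * (Nat.log b (2 ^ k i) + 1) := by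
      have h4 : 2 ^ k i < b ^ (Nat.log b (2 ^ k i) + 1) := Nat.lt_pow_succ_log_self (by omega) _
      have h5 : b ^ (Nat.log b (2 ^ k i) + 1) ≤ 2 ^ (b * (Nat.log b (2 ^ k i) + 1)) :=
        two_pow_mul_ge b _
      exact (Nat.pow_lt_pow_iff_right (by omega)).1 (h4.trans_le h5)
    have h4 : Nat.log b (2 ^ k i) ≤ 2 * U i + 2 := by simp only [hUd]; omega
    have h5 : k i < b * (2 * U i + 3) := lt_of_lt_of_le h3 (Nat.mul_le_mul_left _ (by omega))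
    have h6 : (k i : ℝ) < b * (2 * U i + 3) := by exact_mod_cast h5
    have h7 := hkl i
    have h8 : 1 / (32 * (b : ℝ)) * (Nat.log 2 i : ℝ) = (Nat.log 2 i : ℝ) / 16 / (2 * b) := by
      field_simp; ring
    rw [h8, sub_le_iff_le_add, div_le_iff₀ (by positivity)]
    nlinarith
  have hpl := tendsto_pv p hp0 hp1 hp l _ (by
    have hw0 : (1 : ℝ) ≤ w := by exact_mod_cast (by omega : 1 ≤ w)
    positivity) hlv
  have hpU := tendsto_pv p hp0 hp1 hp U _ (by positivity) hUv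
  have hE2 := exp_small _ hpl (4 * (b : ℝ) ^ 2) (ε / (8 * (b : ℝ) ^ 2)) (by positivity) (by positivity)
  have hE1 := exp_small _ hpU (4 * (b : ℝ) ^ 4) (ε / (8 * (b : ℝ) ^ 2 * (2 * (2 * (4 * b) + 2))))
    (by positivity) (by positivity)
  set D0 : ℕ := 2 * (C2 + 5 * b * g + 5) + (2 * (C1 + 5 * b * g + 2)) ^ 2 +
    (3 * b + b * (C2 + 1) + 1) + 11 * b ^ 2 + b with hD0
  have hpow : Tendsto (fun i : ℕ => 2 ^ k i) atTop atTop :=
    tendsto_atTop_mono (fun i => (Nat.lt_two_pow_self).le) hk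
  have hpowR : Tendsto (fun i : ℕ => ((2 ^ k i : ℕ) : ℝ)) atTop atTop :=
    tendsto_natCast_atTop_atTop.comp hpow
  filter_upwards [hE1, hE2, hpow.eventually_ge_atTop D0, hk.eventually_ge_atTop (b + 42),
    hpowR.eventually_ge_atTop (2 / ε), eventually_ge_atTop 1] with i hi1 hi2 hi3 hi4 hi5 hi6
  intro c y σ hσ
  refine (moment_pairs b g x h (p i) _ _ c y σ hσ).trans ?_
  set X := 2 ^ k i with hX
  have hX1 : 1 ≤ X := Nat.one_le_pow _ _ (by norm_num)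
  set t := tau b g i with ht
  set m := tau b g (i + 1) - tau b g i with hm
  have htm : tau b g (i + 1) = t + m := by
    have := tau_mono b g hb hg i
    omega
  have hmle : m ≤ b * (2 * i + 1) := by
    have := tau_succ_le b g hg i
    omega
  rw [htm]
  refine (trim (Fp b g h x (p i) (Ico (i ^ 2) (i ^ 2 + (2 * i + 1))))
    (fun n m => Fp_nonneg b g h x _ _ _ _) (fun n m => Fp_le_one b g h x _ (hp0 i) (hp1 i) _ _ _)
    t m (3 * b * X ^ 3) (b * (C2 + 1) + 1)).trans ?_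
  set M := m - 3 * b * X ^ 3 - (b * (C2 + 1) + 1) with hM
  -- conditions on `X`
  have hc1 : 2 * (C2 + 5 * b * g + 5) ≤ X := by omega
  have hc2 : 2 * (C1 + 5 * b * g + 2) * (n₀ + 1) ^ l i ≤ X := by
    set D := 2 * (C1 + 5 * b * g + 2) with hD
    have h1 : D ^ 2 ≤ X := by omega
    have h2 : ((n₀ + 1) ^ l i) ^ 2 ≤ X := by
      calc ((n₀ + 1) ^ l i) ^ 2 ≤ ((2 ^ w) ^ l i) ^ 2 :=
            Nat.pow_le_pow_left (Nat.pow_le_pow_left hw2 _) 2
        _ = 2 ^ (2 * w * l i) := by rw [← pow_mul, ← pow_mul]; congr 1; ring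
        _ ≤ 2 ^ k i := by
          apply Nat.pow_le_pow_right (by norm_num)
          simp only [hld]
          exact Nat.mul_div_le _ _
    have h3 : (D * (n₀ + 1) ^ l i) ^ 2 ≤ X ^ 2 := by
      rw [mul_pow, pow_two X]
      exact Nat.mul_le_mul h1 h2
    exact (Nat.pow_le_pow_iff_left (by norm_num)).1 h3
  have hbX : b ≤ X := by omega
  have hc3 : b ^ (2 * U i + 1) ≤ X := by
    have h1 : 1 ≤ Nat.log b X := Nat.log_pos (by omega) hbX
    have h2 : 2 * U i + 1 ≤ Nat.log b X := by simp only [hUd, ← hX]; omega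
    exact (Nat.pow_le_pow_right (by omega) h2).trans (Nat.pow_log_le_self b (by omega))
  have hi16 : i < 2 ^ (16 * k i + 16) := by
    have h1 : i < 2 ^ (Nat.log 2 i + 1) := Nat.lt_pow_succ_log_self (by norm_num) i
    refine h1.trans_le (Nat.pow_le_pow_right (by norm_num) ?_)
    simp only [hkd]
    omega
  have hXi : X ^ 16 ≤ i := by
    calc X ^ 16 = 2 ^ (16 * k i) := by rw [hX, ← pow_mul, mul_comm]
      _ ≤ 2 ^ Nat.log 2 i := by
        apply Nat.pow_le_pow_right (by norm_num)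
        simp only [hkd]
        exact Nat.mul_div_le _ _
      _ ≤ i := Nat.pow_log_le_self 2 (by omega)
  have htop : ∀ n, n < t + m → 2 * n ≤ 2 ^ X := by
    intro n hn
    have h1 : t + m ≤ b * (i + 1) ^ 2 := by rw [← htm]; exact tau_le_mul b g hg (i + 1)
    have h2 : (i + 1) ^ 2 ≤ 2 ^ (32 * k i + 32) := by
      calc (i + 1) ^ 2 ≤ (2 ^ (16 * k i + 16)) ^ 2 := Nat.pow_le_pow_left hi16 2
        _ = _ := by rw [← pow_mul]; congr 1; ring
    have h3 : 33 * k i ≤ 2 ^ k i := pow_ge _ (by omega)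
    calc 2 * n ≤ 2 * (b * (i + 1) ^ 2) := by omega
      _ ≤ 2 * (2 ^ b * 2 ^ (32 * k i + 32)) := by
        apply Nat.mul_le_mul_left
        exact Nat.mul_le_mul (Nat.lt_two_pow_self).le h2
      _ = 2 ^ (1 + b + (32 * k i + 32)) := by
        rw [pow_add 2 (1 + b), pow_add 2 1 b, pow_one]; ring
      _ ≤ 2 ^ X := by
        apply Nat.pow_le_pow_right (by norm_num)
        rw [hX]
        omega
  have hgp := good_pairs b g hb hg hind h hh x n₀ H C1 C2 hC1 hC2 hC2b X (l i) (U i) hc1 hc2 hc3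
    (p i) (hp0 i) (hp1 i) (i ^ 2) (i ^ 2 + (2 * i + 1)) (t + 3 * b * X ^ 3) M
    (by
      intro n hn _
      have h1 : b ^ (i ^ 2 + 3 * X ^ 3) ≤ g ^ n := by
        calc b ^ (i ^ 2 + 3 * X ^ 3) = b ^ (i ^ 2) * b ^ (3 * X ^ 3) := pow_add _ _ _
          _ ≤ g ^ t * g ^ (b * (3 * X ^ 3)) := Nat.mul_le_mul (pow_le_tau b g hg i) (pow_mul_ge b g hg _)
          _ = g ^ (t + b * (3 * X ^ 3)) := (pow_add _ _ _).symm
          _ ≤ g ^ n := by
            apply Nat.pow_le_pow_right (by omega)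
            calc t + b * (3 * X ^ 3) = t + 3 * b * X ^ 3 := by ring
              _ ≤ n := hn
      exact_mod_cast h1)
    (by
      intro n hn hn2
      have h1 : n + b * (C2 + 1) < tau b g (i + 1) := by rw [htm]; omega
      have h2 := lt_of_lt_tau b g (i + 1) _ h1
      have h3 : g ^ n * b ^ (C2 + 1) ≤ b ^ (i ^ 2 + (2 * i + 1)) := by
        calc g ^ n * b ^ (C2 + 1) ≤ g ^ n * g ^ (b * (C2 + 1)) :=
              Nat.mul_le_mul_left _ (pow_mul_ge b g hg _)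
          _ = g ^ (n + b * (C2 + 1)) := (pow_add _ _ _).symm
          _ ≤ b ^ ((i + 1) ^ 2) := h2.le
          _ = _ := by congr 1; ring
      exact_mod_cast h3)
    (by
      intro n hn hn2
      have h1 : 2 * n ≤ 2 ^ X := htop n (by omega)
      have h2 : 2 ^ X ≤ b ^ X := Nat.pow_le_pow_left hb X
      exact_mod_cast h1.trans h2)
  -- the final estimate
  set L : ℝ := ((2 * i + 1 : ℕ) : ℝ) with hL
  have hL0 : (0 : ℝ) < L := by rw [hL]; exact_mod_cast (by omega : 0 < 2 * i + 1)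
  have hXR : (1 : ℝ) ≤ X := by exact_mod_cast hX1
  set E1 : ℝ := 2 * (2 * (4 * b) + 2) *
    (1 - (1 - Real.exp (-(p i / (b : ℝ) ^ 4))) / 2) ^ U i with hE1d
  set E2 : ℝ := Real.exp (-(p i * l i / (4 * (b : ℝ) ^ 2))) with hE2d
  have hE1a : 0 ≤ E1 := by
    rw [hE1d]
    have h1 : 0 < Real.exp (-(p i / (b : ℝ) ^ 4)) := Real.exp_pos _
    have h2 : 0 ≤ 1 - (1 - Real.exp (-(p i / (b : ℝ) ^ 4))) / 2 := by linarith
    positivity
  have hE2a : 0 ≤ E2 := (Real.exp_pos _).le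
  have hE1b : E1 ≤ ε / (8 * (b : ℝ) ^ 2) := by
    have h1 := (theta_pow (p i) b (U i) hb (hp0 i) (hp1 i)).trans hi1
    calc E1 ≤ 2 * (2 * (4 * b) + 2) * (ε / (8 * (b : ℝ) ^ 2 * (2 * (2 * (4 * b) + 2)))) := by
          rw [hE1d]; gcongr
      _ = _ := by field_simp
  have hE2b : E2 ≤ ε / (8 * (b : ℝ) ^ 2) := hi2
  have hmR : (m : ℝ) ≤ b * L := by rw [hL]; exact_mod_cast hmle
  have hMR : (M : ℝ) ≤ b * L := by
    refine le_trans ?_ hmR
    exact_mod_cast (by omega : M ≤ m)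
  have hM0 : (0 : ℝ) ≤ M := Nat.cast_nonneg _
  have hm0 : (0 : ℝ) ≤ m := Nat.cast_nonneg _
  have heR : ((3 * b * X ^ 3 + (b * (C2 + 1) + 1) : ℕ) : ℝ) ≤ (X : ℝ) ^ 4 := by
    have h1 : 3 * b * X ^ 3 + (b * (C2 + 1) + 1) ≤ X ^ 4 := by
      have h2 : 1 ≤ X ^ 3 := Nat.one_le_pow _ _ hX1
      have h3 : 3 * b + b * (C2 + 1) + 1 ≤ X := by omega
      calc 3 * b * X ^ 3 + (b * (C2 + 1) + 1) ≤ 3 * b * X ^ 3 + (b * (C2 + 1) + 1) * X ^ 3 := by
            apply Nat.add_le_add_left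
            exact Nat.le_mul_of_pos_right _ h2
        _ = (3 * b + b * (C2 + 1) + 1) * X ^ 3 := by ring
        _ ≤ X * X ^ 3 := Nat.mul_le_mul_right _ h3
        _ = X ^ 4 := by ring
    exact_mod_cast h1
  have h11 : 11 * (b : ℝ) ^ 2 ≤ X := by exact_mod_cast (by omega : 11 * b ^ 2 ≤ X)
  have hX16 : (X : ℝ) ^ 16 ≤ L := by
    have h1 : X ^ 16 ≤ 2 * i + 1 := by omega
    rw [hL]; exact_mod_cast h1
  have hX6 : (X : ℝ) ^ 6 ≤ L := (pow_le_pow_right₀ hXR (by norm_num)).trans hX16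
  have h2X : 2 ≤ ε * (X : ℝ) := by rw [div_le_iff₀ hε] at hi5; linarith
  exact (add_le_add_right hgp _).trans (final_est b X L E1 E2 M m _ ε hb2 hXR hL0 hE1a hE2a hE1b
    hE2b hM0 hMR hm0 hmR (Nat.cast_nonneg _) heR h11 hX6 hε h2X)

end Pool.Agent.Helper5.PiAbs
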