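import Mathlib
import Pool.Agent.Helper5.PiFew.Weyl
import Pool.Agent.Helper5.PiAbs.Small2

/-!
The construction of the places which are changed, several bases at once.
-/

set_option autoImplicit false

open Finset Filter Topology

namespace Pool.Agent.Helper5.PiAbs

open Pool.Agent.Helper5.PiFew
open Pool.Agent.H332R2.Lit (e e_add norm_e conj_e norm_one_sub_e)
open Pool.Agent.Q77.Cos (W)

/-- the sum over the `i`-th block of times in base `g` -/
noncomputable def T2 (b g : ℕ) (h : ℤ) (x c : ℝ) (i : ℕ) (y : ℝ) : ℂ :=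
  ∑ n ∈ Ico (tau b g i) (tau b g (i + 1)), e (h * ((g : ℝ) ^ n * (x * y + c)))

lemma choose2 (b : ℕ) (hb : 2 ≤ b) (i : ℕ) (p : ℝ) (hp0 : 0 < p) (hp1 : p ≤ 1 / 2) (s : ℕ)
    (hs : 1 ≤ s) (gg : ℕ → ℕ) (hh : ℕ → ℤ) (xx cc : ℕ → ℝ) (dd : ℕ → ℕ → Fin b)
    (HS : ∀ l < s, Smg b (gg l) (xx l) (hh l) p i (1 / (4 * (s : ℝ) ^ 3)))
    (A : Set ℕ) (hA : ∀ j ∈ A, j < i ^ 2) :
    ∃ F : Finset ℕ, F ⊆ Ico (i ^ 2) (i ^ 2 + (2 * i + 1)) ∧
      (#F : ℝ) ≤ 2 * p * ((2 * i + 1 : ℕ) : ℝ) ∧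
      ∀ l < s, ‖T2 b (gg l) (hh l) (xx l) (cc l) i (Real.ofDigits (chg (A ∪ (F : Set ℕ)) (dd l)))‖ ≤
        ((2 * i + 1 : ℕ) : ℝ) / s := by
  classical
  set B := Ico (i ^ 2) (i ^ 2 + (2 * i + 1)) with hB
  set M : ℝ := ((2 * i + 1 : ℕ) : ℝ) with hM
  have hM0 : (0 : ℝ) < M := by rw [hM]; exact_mod_cast (by omega : 0 < 2 * i + 1)
  have hs0 : (0 : ℝ) < s := by exact_mod_cast hs
  have hcard : (#B : ℝ) = M := by rw [hB, Nat.card_Ico, hM]; congr 1; omega
  set Φ : Finset ℕ → ℝ := fun F => (#F : ℝ) / (2 * p * M) +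
    ∑ l ∈ range s, ‖T2 b (gg l) (hh l) (xx l) (cc l) i (Real.ofDigits (chg (A ∪ (F : Set ℕ)) (dd l)))‖ ^ 2 *
      ((s : ℝ) ^ 2 / M ^ 2) with hΦ
  have hmean : ∑ F ∈ B.powerset, wt p B F * Φ F ≤ 3 / 4 := by
    have h1 : ∑ F ∈ B.powerset, wt p B F * Φ F =
        (∑ F ∈ B.powerset, wt p B F * (#F : ℝ)) / (2 * p * M) +
        ∑ l ∈ range s, (∑ F ∈ B.powerset, wt p B F *
          ‖T2 b (gg l) (hh l) (xx l) (cc l) i (Real.ofDigits (chg (A ∪ (F : Set ℕ)) (dd l)))‖ ^ 2) *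
          ((s : ℝ) ^ 2 / M ^ 2) := by
      simp only [hΦ, mul_add, Finset.sum_add_distrib, Finset.mul_sum, Finset.sum_mul,
        Finset.sum_div]
      congr 1
      · refine Finset.sum_congr rfl fun F _ => by ring
      · rw [Finset.sum_comm]
        refine Finset.sum_congr rfl fun F _ => ?_
        refine Finset.sum_congr rfl fun l _ => by ring
    rw [h1, sum_wt_card, hcard]
    have h2 : p * M / (2 * p * M) = 1 / 2 := by field_simp
    rw [h2]
    have h3 : ∀ l ∈ range s, (∑ F ∈ B.powerset, wt p B F *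
          ‖T2 b (gg l) (hh l) (xx l) (cc l) i (Real.ofDigits (chg (A ∪ (F : Set ℕ)) (dd l)))‖ ^ 2) *
          ((s : ℝ) ^ 2 / M ^ 2) ≤ 1 / (4 * s) := by
      intro l hl
      have h4 := HS l (mem_range.1 hl) (cc l) (Real.ofDigits (chg A (dd l)))
        (fun j => sg (dd l j)) (fun j => sg_eq hb _)
      have h5 : ∑ F ∈ B.powerset, wt p B F *
          ‖T2 b (gg l) (hh l) (xx l) (cc l) i (Real.ofDigits (chg (A ∪ (F : Set ℕ)) (dd l)))‖ ^ 2 ≤
          1 / (4 * (s : ℝ) ^ 3) * M ^ 2 := by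
        refine le_trans (le_of_eq ?_) h4
        refine Finset.sum_congr rfl fun F hF => ?_
        rw [ofDigits_union A F (fun j hj hjA => ?_)]
        · rfl
        · have h6 := hA j hjA
          have h7 := mem_powerset.1 hF hj
          rw [mem_Ico] at h7
          omega
      calc _ ≤ 1 / (4 * (s : ℝ) ^ 3) * M ^ 2 * ((s : ℝ) ^ 2 / M ^ 2) :=
            mul_le_mul_of_nonneg_right h5 (by positivity)
        _ = 1 / (4 * s) := by field_simp
    have h6 := Finset.sum_le_sum h3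
    rw [Finset.sum_const, card_range, nsmul_eq_mul] at h6
    have h7 : (s : ℝ) * (1 / (4 * s)) = 1 / 4 := by field_simp
    rw [h7] at h6
    linarith
  obtain ⟨F, hF, hF1⟩ : ∃ F ∈ B.powerset, Φ F < 1 := by
    by_contra hcon
    push Not at hcon
    have h1 : ∑ F ∈ B.powerset, wt p B F * 1 ≤ ∑ F ∈ B.powerset, wt p B F * Φ F :=
      Finset.sum_le_sum fun F hF =>
        mul_le_mul_of_nonneg_left (hcon F hF) (wt_nonneg p hp0.le (by linarith) B F)
    simp only [mul_one] at h1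
    rw [sum_wt] at h1
    linarith
  refine ⟨F, mem_powerset.1 hF, ?_, ?_⟩
  · have h1 : (#F : ℝ) / (2 * p * M) ≤ 1 := by
      have h2 : 0 ≤ ∑ l ∈ range s, ‖T2 b (gg l) (hh l) (xx l) (cc l) i
          (Real.ofDigits (chg (A ∪ (F : Set ℕ)) (dd l)))‖ ^ 2 * ((s : ℝ) ^ 2 / M ^ 2) :=
        Finset.sum_nonneg fun l _ => by positivity
      simp only [hΦ] at hF1
      linarith
    rw [div_le_one (by positivity)] at h1
    exact h1
  · intro l hl
    have h2 : ‖T2 b (gg l) (hh l) (xx l) (cc l) i (Real.ofDigits (chg (A ∪ (F : Set ℕ)) (dd l)))‖ ^ 2 *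
        ((s : ℝ) ^ 2 / M ^ 2) ≤ ∑ l ∈ range s, ‖T2 b (gg l) (hh l) (xx l) (cc l) i
          (Real.ofDigits (chg (A ∪ (F : Set ℕ)) (dd l)))‖ ^ 2 * ((s : ℝ) ^ 2 / M ^ 2) :=
      Finset.single_le_sum (f := fun l => ‖T2 b (gg l) (hh l) (xx l) (cc l) i
          (Real.ofDigits (chg (A ∪ (F : Set ℕ)) (dd l)))‖ ^ 2 * ((s : ℝ) ^ 2 / M ^ 2))
        (fun l _ => by positivity) (mem_range.2 hl)
    have h3 : 0 ≤ (#F : ℝ) / (2 * p * M) := by positivity
    simp only [hΦ] at hF1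
    have h4 : (‖T2 b (gg l) (hh l) (xx l) (cc l) i (Real.ofDigits (chg (A ∪ (F : Set ℕ)) (dd l)))‖ *
        (s / M)) ^ 2 ≤ 1 ^ 2 := by
      calc _ = ‖T2 b (gg l) (hh l) (xx l) (cc l) i (Real.ofDigits (chg (A ∪ (F : Set ℕ)) (dd l)))‖ ^ 2 *
            ((s : ℝ) ^ 2 / M ^ 2) := by ring
        _ ≤ 1 ^ 2 := by linarith
    have h5 := (pow_le_pow_iff_left₀ (by positivity) (by norm_num) two_ne_zero).1 h4
    rw [le_div_iff₀ hs0]
    rw [mul_div_assoc', div_le_one hM0] at h5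
    exact h5

/-- the recursion -/
theorem build2 (b : ℕ) (hb : 2 ≤ b) (p : ℕ → ℝ) (hp0 : ∀ i, 0 ≤ p i) (hp1 : ∀ i, p i ≤ 1 / 2)
    (s : ℕ → ℕ) (gg : ℕ → ℕ) (hh : ℕ → ℤ) (xx cc : ℕ → ℝ) (dd : ℕ → ℕ → Fin b)
    (HS : ∀ i, 1 ≤ s i → 0 < p i ∧
      ∀ l < s i, Smg b (gg l) (xx l) (hh l) (p i) i (1 / (4 * (s i : ℝ) ^ 3))) :
    ∃ A : Set ℕ, (∀ i, (({j : ℕ | j < i ^ 2 ∧ j ∈ A}.ncard : ℕ) : ℝ) ≤
        ∑ i' ∈ range i, 2 * p i' * ((2 * i' + 1 : ℕ) : ℝ)) ∧
      ∀ i, ∀ l < s i, ∃ A' : Set ℕ, (∀ j < (i + 1) ^ 2, j ∈ A ↔ j ∈ A') ∧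
        ‖T2 b (gg l) (hh l) (xx l) (cc l) i (Real.ofDigits (chg A' (dd l)))‖ ≤
          ((2 * i + 1 : ℕ) : ℝ) / s i := by
  classical
  have step : ∀ (i : ℕ) (A : Finset ℕ), ∃ F : Finset ℕ, F ⊆ Ico (i ^ 2) (i ^ 2 + (2 * i + 1)) ∧
      (#F : ℝ) ≤ 2 * p i * ((2 * i + 1 : ℕ) : ℝ) ∧ ((∀ j ∈ A, j < i ^ 2) →
      ∀ l < s i, ‖T2 b (gg l) (hh l) (xx l) (cc l) i
        (Real.ofDigits (chg ((A : Set ℕ) ∪ (F : Set ℕ)) (dd l)))‖ ≤
        ((2 * i + 1 : ℕ) : ℝ) / s i) := by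
    intro i A
    by_cases h : 1 ≤ s i ∧ ∀ j ∈ A, j < i ^ 2
    · obtain ⟨h1, h2⟩ := HS i h.1
      obtain ⟨F, hF1, hF2, hF3⟩ := choose2 b hb i (p i) h1 (hp1 i) (s i) h.1 gg hh xx cc dd h2 (A : Set ℕ)
        (fun j hj => h.2 j (by exact_mod_cast hj))
      exact ⟨F, hF1, hF2, fun _ => hF3⟩
    · refine ⟨∅, empty_subset _, ?_, fun h1 l hl => ?_⟩
      · rw [card_empty, Nat.cast_zero]
        have := hp0 i
        positivity
      · exact absurd ⟨by omega, h1⟩ h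
  choose F hF1 hF2 hF3 using step
  set AA : ℕ → Finset ℕ := fun i => Nat.rec ∅ (fun i A => A ∪ F i A) i with hAA
  have hA0 : AA 0 = ∅ := rfl
  have hAs : ∀ i, AA (i + 1) = AA i ∪ F i (AA i) := fun i => rfl
  have hsq : ∀ i : ℕ, i ^ 2 + (2 * i + 1) = (i + 1) ^ 2 := fun i => by ring
  have hlt : ∀ i, ∀ j ∈ AA i, j < i ^ 2 := by
    intro i
    induction i with
    | zero => intro j hj; rw [hA0] at hj; simp at hj
    | succ i ih =>
      intro j hj
      rw [hAs, mem_union] at hj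
      rcases hj with hj | hj
      · have := ih j hj
        rw [← hsq]; omega
      · have := hF1 i (AA i) hj
        rw [mem_Ico] at this
        rw [← hsq]; exact this.2
  have hmono : ∀ i k, AA i ⊆ AA (i + k) := by
    intro i k
    induction k with
    | zero => exact subset_rfl
    | succ k ih =>
      rw [← Nat.add_assoc, hAs]
      exact ih.trans subset_union_left
  have hstab : ∀ i k j, j < i ^ 2 → j ∈ AA (i + k) → j ∈ AA i := by
    intro i k j hj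
    induction k with
    | zero => exact id
    | succ k ih =>
      rw [← Nat.add_assoc, hAs, mem_union]
      rintro (h | h)
      · exact ih h
      · exfalso
        have h1 := hF1 (i + k) _ h
        rw [mem_Ico] at h1
        have h2 : i ^ 2 ≤ (i + k) ^ 2 := Nat.pow_le_pow_left (by omega) 2
        omega
  set A : Set ℕ := {j | ∃ i, j ∈ AA i} with hA
  have hiff : ∀ i j, j < i ^ 2 → (j ∈ A ↔ j ∈ (AA i : Set ℕ)) := by
    intro i j hj
    constructor
    · rintro ⟨i', hi'⟩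
      rw [mem_coe]
      rcases Nat.le_total i i' with h | h
      · obtain ⟨k, rfl⟩ := Nat.exists_eq_add_of_le h
        exact hstab i k j hj hi'
      · obtain ⟨k, rfl⟩ := Nat.exists_eq_add_of_le h
        exact hmono i' k hi'
    · intro h
      exact ⟨i, h⟩
  refine ⟨A, ?_, ?_⟩
  · intro i
    have h1 : {j : ℕ | j < i ^ 2 ∧ j ∈ A} = (AA i : Set ℕ) := by
      ext j
      constructor
      · rintro ⟨h1, h2⟩
        exact (hiff i j h1).1 h2
      · intro h2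
        exact ⟨hlt i j h2, ⟨i, h2⟩⟩
    rw [h1, Set.ncard_coe_finset]
    induction i with
    | zero => simp [hA0]
    | succ i ih =>
      rw [Finset.sum_range_succ, hAs]
      have h2 : (#(AA i ∪ F i (AA i)) : ℝ) ≤ #(AA i) + #(F i (AA i)) := by
        exact_mod_cast card_union_le _ _
      have h3 : {j : ℕ | j < i ^ 2 ∧ j ∈ A} = (AA i : Set ℕ) := by
        ext j
        constructor
        · rintro ⟨h1, h2⟩
          exact (hiff i j h1).1 h2
        · intro h2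
          exact ⟨hlt i j h2, ⟨i, h2⟩⟩
      have h4 := ih h3
      have h5 := hF2 i (AA i)
      linarith
  · intro i l hl
    refine ⟨(AA i : Set ℕ) ∪ (F i (AA i) : Set ℕ), ?_, hF3 i (AA i) (hlt i) l hl⟩
    intro j hj
    rw [hiff (i + 1) j hj, hAs, coe_union]

lemma T2_close (b g : ℕ) (hb : 2 ≤ b) (hg : 2 ≤ g) (h : ℤ) (x c : ℝ) (i : ℕ) (y y' : ℝ)
    (hy : |y - y'| ≤ ((b : ℝ) ^ ((i + 1) ^ 2))⁻¹) :
    ‖T2 b g h x c i y‖ ≤ ‖T2 b g h x c i y'‖ + 2 * Real.pi * |(h : ℝ) * x| * g := by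
  have hb0 : (0 : ℝ) < b := by exact_mod_cast (by omega : 0 < b)
  have hg0 : (0 : ℝ) < g := by exact_mod_cast (by omega : 0 < g)
  have hK : (g : ℝ) ^ tau b g (i + 1) ≤ g * (b : ℝ) ^ ((i + 1) ^ 2) := by
    rcases Nat.eq_zero_or_pos (tau b g (i + 1)) with h0 | h0
    · rw [h0, pow_zero]
      have h1 : (1 : ℝ) ≤ (b : ℝ) ^ ((i + 1) ^ 2) :=
        one_le_pow₀ (by exact_mod_cast (by omega : 1 ≤ b))
      have h2 : (1 : ℝ) ≤ g := by exact_mod_cast (by omega : 1 ≤ g)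
      nlinarith
    · have h1 := lt_of_lt_tau b g (i + 1) (tau b g (i + 1) - 1) (by omega)
      have h2 : g ^ tau b g (i + 1) = g ^ (tau b g (i + 1) - 1) * g := by
        rw [← pow_succ]; congr 1; omega
      have h3 : g ^ tau b g (i + 1) ≤ g * b ^ ((i + 1) ^ 2) := by
        rw [h2, mul_comm]
        exact Nat.mul_le_mul_left _ h1.le
      exact_mod_cast h3
  have h1 : ‖T2 b g h x c i y - T2 b g h x c i y'‖ ≤ 2 * Real.pi * |(h : ℝ) * x| * g := by
    unfold T2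
    rw [← Finset.sum_sub_distrib]
    calc _ ≤ ∑ n ∈ Ico (tau b g i) (tau b g (i + 1)),
          2 * Real.pi * |(h : ℝ) * x| * ((b : ℝ) ^ ((i + 1) ^ 2))⁻¹ * (g : ℝ) ^ n := by
          refine (norm_sum_le _ _).trans (Finset.sum_le_sum fun n _ => ?_)
          refine (e_lip _ _).trans ?_
          have h2 : (h : ℝ) * ((g : ℝ) ^ n * (x * y + c)) - h * ((g : ℝ) ^ n * (x * y' + c)) =
              h * x * ((g : ℝ) ^ n * (y - y')) := by ring
          rw [h2, abs_mul, abs_mul ((g : ℝ) ^ n), abs_of_pos (pow_pos hg0 n)]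
          have h3 : (g : ℝ) ^ n * |y - y'| ≤ (g : ℝ) ^ n * ((b : ℝ) ^ ((i + 1) ^ 2))⁻¹ :=
            mul_le_mul_of_nonneg_left hy (by positivity)
          calc 2 * Real.pi * (|(h : ℝ) * x| * ((g : ℝ) ^ n * |y - y'|))
              ≤ 2 * Real.pi * (|(h : ℝ) * x| * ((g : ℝ) ^ n * ((b : ℝ) ^ ((i + 1) ^ 2))⁻¹)) := by
                gcongr
            _ = _ := by ring
      _ = 2 * Real.pi * |(h : ℝ) * x| * (((b : ℝ) ^ ((i + 1) ^ 2))⁻¹ *
          ∑ n ∈ Ico (tau b g i) (tau b g (i + 1)), (g : ℝ) ^ n) := by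
          rw [← Finset.mul_sum]; ring
      _ ≤ 2 * Real.pi * |(h : ℝ) * x| * g := by
          apply mul_le_mul_of_nonneg_left _ (by positivity)
          rw [inv_mul_le_iff₀ (by positivity), mul_comm]
          refine le_trans ?_ hK
          refine le_trans ?_ (geom_le g hg (tau b g (i + 1)))
          apply Finset.sum_le_sum_of_subset_of_nonneg
          · intro n hn
            rw [mem_Ico] at hn
            rw [mem_range]
            exact hn.2
          · intro n _ _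
            positivity
  calc ‖T2 b g h x c i y‖ = ‖T2 b g h x c i y' + (T2 b g h x c i y - T2 b g h x c i y')‖ := by
        congr 1; ring
    _ ≤ _ := (norm_add_le _ _).trans (by linarith)

lemma W_blocks2 (b g : ℕ) (hb : 2 ≤ b) (hg : 2 ≤ g) (h : ℤ) (x c : ℝ) (y : ℝ) (I : ℕ) :
    W g h (tau b g I) (x * y + c) = ∑ i ∈ range I, T2 b g h x c i y := by
  unfold Pool.Agent.Q77.Cos.W T2
  induction I with
  | zero => simp [tau_zero]
  | succ I ih =>
    rw [Finset.sum_range_succ, ← ih, Finset.range_eq_Ico, Finset.range_eq_Ico]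
    rw [Finset.sum_Ico_consecutive _ (Nat.zero_le _) (tau_mono b g hb hg I)]

theorem weyl_of_blocks2 (b g : ℕ) (hb : 2 ≤ b) (hg : 2 ≤ g) (h : ℤ) (x c : ℝ) (y : ℝ)
    (H : ∀ δ : ℝ, 0 < δ → ∀ᶠ i : ℕ in atTop, ‖T2 b g h x c i y‖ ≤ δ * ((2 * i + 1 : ℕ) : ℝ)) :
    ∀ δ : ℝ, 0 < δ → ∀ᶠ N : ℕ in atTop, ‖W g h N (x * y + c)‖ ≤ δ * N := by
  intro δ hδ
  have hb0 : (0 : ℝ) < b := by exact_mod_cast (by omega : 0 < b)
  have hg0 : (0 : ℝ) < g := by exact_mod_cast (by omega : 0 < g)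
  have h1 : ∀ i, ‖T2 b g h x c i y‖ / b ≤ ((2 * i + 1 : ℕ) : ℝ) := by
    intro i
    unfold T2
    rw [div_le_iff₀ hb0]
    refine (norm_sum_le _ _).trans ?_
    simp only [norm_e]
    rw [Finset.sum_const, Nat.card_Ico, nsmul_eq_mul, mul_one]
    have h2 := tau_succ_le b g hg i
    have h3 : tau b g (i + 1) - tau b g i ≤ (2 * i + 1) * b := by
      rw [Nat.mul_comm]; omega
    exact_mod_cast h3
  have h2 := cesaro (fun i => ‖T2 b g h x c i y‖ / b) h1 (fun δ' hδ' => by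
    filter_upwards [H (δ' * b) (by positivity)] with i hi
    rw [div_le_iff₀ hb0]
    calc _ ≤ δ' * b * ((2 * i + 1 : ℕ) : ℝ) := hi
      _ = _ := by ring) (δ / (4 * b * g)) (by positivity)
  -- the last block before `N`
  set I : ℕ → ℕ := fun N => Nat.findGreatest (fun i => tau b g i ≤ N) (g * N + 1) with hI
  have hIle : ∀ N, tau b g (I N) ≤ N := by
    intro N
    rcases Nat.eq_zero_or_pos (I N) with h0 | h0
    · rw [h0, tau_zero]; omega
    · exact Nat.findGreatest_of_ne_zero (P := fun i => tau b g i ≤ N) rfl (by omega)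
  have hsq : ∀ N i, tau b g i ≤ N → i ≤ g * N + 1 := by
    intro N i hi
    have h3 := sq_le_tau b g hb hg i
    have h4 : i ^ 2 ≤ g * N := h3.trans (Nat.mul_le_mul_left _ hi)
    have h5 : i ≤ i ^ 2 := by
      rcases Nat.eq_zero_or_pos i with h | h
      · rw [h]; omega
      · nlinarith
    omega
  have hIlt : ∀ N, N < tau b g (I N + 1) := by
    intro N
    by_contra hcon
    push Not at hcon
    have h3 := hsq N _ hcon
    have h4 := Nat.le_findGreatest (P := fun i => tau b g i ≤ N) h3 hcon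
    have : I N = Nat.findGreatest (fun i => tau b g i ≤ N) (g * N + 1) := rfl
    omega
  have hItop : Tendsto I atTop atTop := by
    rw [tendsto_atTop]
    intro m
    filter_upwards [eventually_ge_atTop (tau b g m), eventually_ge_atTop m] with N hN hN2
    apply Nat.le_findGreatest
    · nlinarith
    · exact hN
  have h3 : ∀ᶠ N : ℕ in atTop, 1 ≤ I N ∧ (b : ℝ) * (2 * I N + 1) ≤ δ / (2 * g) * (I N : ℝ) ^ 2 := by
    have h4 : ∀ᶠ I : ℕ in atTop, 1 ≤ I ∧ (b : ℝ) * (2 * I + 1) ≤ δ / (2 * g) * (I : ℝ) ^ 2 := by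
      have h5 : Tendsto (fun I : ℕ => δ / (2 * g) * (I : ℝ)) atTop atTop :=
        Tendsto.const_mul_atTop (by positivity) tendsto_natCast_atTop_atTop
      filter_upwards [h5.eventually_ge_atTop (3 * b), eventually_ge_atTop 1] with I hI hI1
      refine ⟨hI1, ?_⟩
      have h6 : (1 : ℝ) ≤ I := by exact_mod_cast hI1
      calc (b : ℝ) * (2 * I + 1) ≤ 3 * b * I := by nlinarith
        _ ≤ δ / (2 * g) * I * I := by gcongr
        _ = _ := by ring
    exact hItop.eventually h4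
  filter_upwards [hItop.eventually h2, h3] with N hN1 hN2
  obtain ⟨hN2, hN3⟩ := hN2
  have h6 := Pool.Agent.Q77.Few.W_step g h (tau b g (I N)) N (hIle N) (x * y + c)
  rw [W_blocks2 b g hb hg] at h6
  have h7 := norm_sum_le (range (I N)) (fun i => T2 b g h x c i y)
  have h8 : (I N : ℝ) ^ 2 ≤ g * N := by
    have h9 := (sq_le_tau b g hb hg (I N)).trans (Nat.mul_le_mul_left g (hIle N))
    exact_mod_cast h9
  have h9 : (N : ℝ) - tau b g (I N) ≤ b * (2 * I N + 1) := by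
    have h10 := (hIlt N).le.trans (tau_succ_le b g hg (I N))
    have h11 : (N : ℝ) ≤ tau b g (I N) + b * (2 * I N + 1) := by exact_mod_cast h10
    linarith
  have h10 : ∑ i ∈ range (I N), ‖T2 b g h x c i y‖ / b =
      (∑ i ∈ range (I N), ‖T2 b g h x c i y‖) / b := by rw [Finset.sum_div]
  rw [h10, div_le_iff₀ hb0] at hN1
  have h11 : δ / (4 * b * g) * (I N : ℝ) ^ 2 * b = δ / (4 * g) * (I N : ℝ) ^ 2 := by
    field_simp
  rw [h11] at hN1
  have h12 : δ / (4 * g) * (I N : ℝ) ^ 2 ≤ δ / (4 * g) * (g * N) := by gcongr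
  have h13 : δ / (4 * g) * (g * N) = δ / 4 * N := by field_simp
  have h14 : δ / (2 * g) * (I N : ℝ) ^ 2 ≤ δ / (2 * g) * (g * N) := by gcongr
  have h15 : δ / (2 * g) * (g * N) = δ / 2 * N := by field_simp
  have h16 : (0 : ℝ) ≤ δ * N := by positivity
  linarith

end Pool.Agent.Helper5.PiAbs
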