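import Mathlib
import Pool.Agent.Helper5.PiAbs.Build2

/-!
Equidistribution along powers of multiplicatively dependent bases.
-/

set_option autoImplicit false

open Finset Filter Topology

namespace Pool.Agent.Helper5.PiAbs

open Pool.Agent.Helper5.PiFew
open Pool.Agent.H332R2.Lit (e e_add norm_e conj_e norm_one_sub_e)
open Pool.Agent.Q77.Cos (W)
open Pool.Agent.Q77.Few (Nrm Wn normal_of_weyl)

lemma W_sum (g : ℕ) (h : ℤ) (N : ℕ) (z : ℝ) :
    W g h N z = ∑ n ∈ range N, e (h * ((g : ℝ) ^ n * z)) := rfl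

/-- from a power of the base to the base -/
theorem wn_of_pow (g u : ℕ) (hg : 2 ≤ g) (hu : 1 ≤ u) (z : ℝ) (H : Wn (g ^ u) z) : Wn g z := by
  intro h hh δ hδ
  have hu0 : (0 : ℝ) < u := by exact_mod_cast hu
  have key : ∀ M : ℕ, W g h (u * M) z = ∑ r ∈ range u, W (g ^ u) (h * (g : ℤ) ^ r) M z := by
    intro M
    induction M with
    | zero => simp [W_sum]
    | succ M ih =>
      have h1 : W g h (u * (M + 1)) z = W g h (u * M) z +
          ∑ r ∈ range u, e (h * ((g : ℝ) ^ (u * M + r) * z)) := by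
        rw [W_sum, W_sum, Nat.mul_succ, Finset.sum_range_add]
      rw [h1, ih, ← Finset.sum_add_distrib]
      refine Finset.sum_congr rfl fun r _ => ?_
      rw [W_sum, W_sum, Finset.sum_range_succ]
      congr 2
      push_cast
      rw [pow_add, pow_mul]
      ring
  have h1 : ∀ᶠ M : ℕ in atTop, ∀ r ∈ range u, ‖W (g ^ u) (h * (g : ℤ) ^ r) M z‖ ≤ δ / 2 * M := by
    rw [Filter.eventually_all_finset]
    intro r _
    apply H _ _ _ (by positivity)
    have : (g : ℤ) ^ r ≠ 0 := pow_ne_zero _ (by exact_mod_cast (by omega : g ≠ 0))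
    exact mul_ne_zero hh this
  have hdiv : Tendsto (fun N : ℕ => N / u) atTop atTop := by
    rw [tendsto_atTop]
    intro m
    filter_upwards [eventually_ge_atTop (m * u)] with N hN
    exact (Nat.le_div_iff_mul_le (by omega)).2 hN
  have h2 : ∀ᶠ N : ℕ in atTop, 2 * (u : ℝ) / δ ≤ N :=
    tendsto_natCast_atTop_atTop.eventually_ge_atTop _
  filter_upwards [hdiv.eventually h1, h2] with N hN1 hN2
  set M := N / u with hM
  have h3 : u * M ≤ N := Nat.mul_div_le _ _
  have h4 : N < u * M + u := by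
    have := Nat.lt_div_mul_add (a := N) (b := u) (by omega)
    rw [hM, mul_comm]; exact this
  have h5 := Pool.Agent.Q77.Few.W_step g h (u * M) N h3 z
  rw [key M] at h5
  have h6 : ‖∑ r ∈ range u, W (g ^ u) (h * (g : ℤ) ^ r) M z‖ ≤ u * (δ / 2 * M) := by
    refine (norm_sum_le _ _).trans ?_
    refine (Finset.sum_le_sum hN1).trans (le_of_eq ?_)
    rw [Finset.sum_const, card_range, nsmul_eq_mul]
  have h7 : ((u * M : ℕ) : ℝ) ≤ N := by exact_mod_cast h3
  have h8 : (N : ℝ) ≤ ((u * M : ℕ) : ℝ) + u := by exact_mod_cast h4.le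
  push_cast at h7 h8 h5
  rw [div_le_iff₀ hδ] at hN2
  have h9 : u * (δ / 2 * M) ≤ δ / 2 * N := by
    calc u * (δ / 2 * M) = δ / 2 * (u * M) := by ring
      _ ≤ δ / 2 * N := by gcongr
  linarith

/-- from the base to a power of the base -/
theorem wn_pow (b v : ℕ) (hb : 2 ≤ b) (hv : 1 ≤ v) (z : ℝ) (H : Wn b z) : Wn (b ^ v) z := by
  intro h hh δ hδ
  have hv0 : (0 : ℝ) < v := by exact_mod_cast hv
  obtain ⟨L, hL1, hL⟩ : ∃ L : ℕ, 1 ≤ L ∧ 8 * v ≤ δ ^ 2 * L := by
    obtain ⟨L, hL⟩ := exists_nat_ge (8 * v / δ ^ 2)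
    refine ⟨L + 1, by omega, ?_⟩
    rw [div_le_iff₀ (by positivity)] at hL
    push_cast
    nlinarith [sq_nonneg δ]
  have hL0 : (0 : ℝ) < L := by exact_mod_cast hL1
  set a : ℕ → ℂ := fun m => e (h * (((b ^ v : ℕ) : ℝ) ^ m * z)) with ha
  have hWa : ∀ M, W (b ^ v) h M z = ∑ m ∈ range M, a m := fun M => rfl
  have hna : ∀ m, ‖a m‖ = 1 := fun m => norm_e _
  -- shifts
  have hshift : ∀ M l : ℕ, ‖∑ m ∈ range M, a m - ∑ m ∈ range M, a (m + l)‖ ≤ 2 * l := by
    intro M l
    induction l with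
    | zero => simp
    | succ l ih =>
      have h1 : ∑ m ∈ range M, a (m + l) - ∑ m ∈ range M, a (m + (l + 1)) = a l - a (M + l) := by
        have h2 := Finset.sum_range_succ' (fun m => a (m + l)) M
        have h3 := Finset.sum_range_succ (fun m => a (m + l)) M
        have h4 : ∑ m ∈ range M, a (m + (l + 1)) = ∑ m ∈ range M, a (m + 1 + l) := by
          refine Finset.sum_congr rfl fun m _ => ?_
          congr 1; ring
        rw [h4]
        rw [h3] at h2
        simp only [zero_add] at h2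
        linear_combination h2
      have h2 : ‖a l - a (M + l)‖ ≤ 2 := by
        refine (norm_sub_le _ _).trans ?_
        rw [hna, hna]; norm_num
      calc ‖∑ m ∈ range M, a m - ∑ m ∈ range M, a (m + (l + 1))‖
          = ‖(∑ m ∈ range M, a m - ∑ m ∈ range M, a (m + l)) +
            (∑ m ∈ range M, a (m + l) - ∑ m ∈ range M, a (m + (l + 1)))‖ := by congr 1; ring
        _ ≤ 2 * l + 2 := by
          refine (norm_add_le _ _).trans ?_
          rw [h1]
          exact add_le_add ih h2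
        _ = 2 * ((l + 1 : ℕ) : ℝ) := by push_cast; ring
  set S : ℕ → ℂ := fun m => ∑ l ∈ range L, a (m + l) with hS
  have hWS : ∀ M, L * ‖∑ m ∈ range M, a m‖ ≤ ‖∑ m ∈ range M, S m‖ + 2 * L ^ 2 := by
    intro M
    have h1 : (L : ℂ) * ∑ m ∈ range M, a m - ∑ m ∈ range M, S m =
        ∑ l ∈ range L, (∑ m ∈ range M, a m - ∑ m ∈ range M, a (m + l)) := by
      rw [Finset.sum_sub_distrib, Finset.sum_const, card_range, nsmul_eq_mul]
      congr 1
      simp only [hS]
      rw [Finset.sum_comm]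
    have h2 : ‖(L : ℂ) * ∑ m ∈ range M, a m - ∑ m ∈ range M, S m‖ ≤ 2 * L ^ 2 := by
      rw [h1]
      refine (norm_sum_le _ _).trans ?_
      calc ∑ l ∈ range L, ‖∑ m ∈ range M, a m - ∑ m ∈ range M, a (m + l)‖
          ≤ ∑ _l ∈ range L, (2 * L : ℝ) := by
            refine Finset.sum_le_sum fun l hl => (hshift M l).trans ?_
            have : (l : ℝ) ≤ L := by exact_mod_cast (mem_range.1 hl).le
            linarith
        _ = 2 * L ^ 2 := by rw [Finset.sum_const, card_range, nsmul_eq_mul]; ring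
    have h3 : (L : ℝ) * ‖∑ m ∈ range M, a m‖ = ‖(L : ℂ) * ∑ m ∈ range M, a m‖ := by
      rw [norm_mul, Complex.norm_natCast]
    rw [h3]
    calc ‖(L : ℂ) * ∑ m ∈ range M, a m‖ =
        ‖∑ m ∈ range M, S m + ((L : ℂ) * ∑ m ∈ range M, a m - ∑ m ∈ range M, S m)‖ := by
          congr 1; ring
      _ ≤ _ := (norm_add_le _ _).trans (by linarith)
  -- the squares
  set R : ℕ → ℂ := fun n => ∑ l ∈ range L, e (h * ((b : ℝ) ^ (n + v * l) * z)) with hR
  have hSR : ∀ m, S m = R (v * m) := by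
    intro m
    simp only [hS, hR, ha]
    refine Finset.sum_congr rfl fun l _ => ?_
    congr 2
    push_cast
    rw [← pow_mul]
    congr 2
    ring
  have hCS : ∀ M : ℕ, ‖∑ m ∈ range M, S m‖ ^ 2 ≤ M * ∑ n ∈ range (v * M), ‖R n‖ ^ 2 := by
    intro M
    have h1 : ‖∑ m ∈ range M, S m‖ ^ 2 ≤ M * ∑ m ∈ range M, ‖S m‖ ^ 2 := by
      have h2 := norm_sum_le (range M) S
      have h3 := sq_sum_le_card_mul_sum_sq (s := range M) (f := fun m => ‖S m‖)
      rw [card_range] at h3
      calc ‖∑ m ∈ range M, S m‖ ^ 2 ≤ (∑ m ∈ range M, ‖S m‖) ^ 2 :=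
            pow_le_pow_left₀ (norm_nonneg _) h2 2
        _ ≤ _ := h3
    refine h1.trans ?_
    apply mul_le_mul_of_nonneg_left _ (Nat.cast_nonneg _)
    have h2 : ∑ m ∈ range M, ‖S m‖ ^ 2 = ∑ n ∈ (range M).image (fun m => v * m), ‖R n‖ ^ 2 := by
      rw [Finset.sum_image]
      · refine Finset.sum_congr rfl fun m _ => by rw [hSR]
      · intro x _ y _ hxy
        exact Nat.eq_of_mul_eq_mul_left (by omega) hxy
    rw [h2]
    apply Finset.sum_le_sum_of_subset_of_nonneg
    · intro n hn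
      obtain ⟨m, hm, rfl⟩ := mem_image.1 hn
      rw [mem_range] at hm ⊢
      exact Nat.mul_lt_mul_of_pos_left hm (by omega)
    · intro n _ _
      positivity
  have hexp : ∀ N : ℕ, (((∑ n ∈ range N, ‖R n‖ ^ 2 : ℝ)) : ℂ) =
      ∑ l ∈ range L, ∑ l' ∈ range L, W b (h * ((b : ℤ) ^ (v * l) - (b : ℤ) ^ (v * l'))) N z := by
    intro N
    have h1 : ∀ n, ((‖R n‖ ^ 2 : ℝ) : ℂ) = ∑ l ∈ range L, ∑ l' ∈ range L,
        e (((h * ((b : ℤ) ^ (v * l) - (b : ℤ) ^ (v * l')) : ℤ) : ℝ) * ((b : ℝ) ^ n * z)) := by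
      intro n
      have h2 : ((‖R n‖ ^ 2 : ℝ) : ℂ) = R n * (starRingEnd ℂ) (R n) := by
        rw [Complex.mul_conj, Complex.normSq_eq_norm_sq]
      rw [h2]
      simp only [hR, map_sum, Finset.sum_mul_sum]
      refine Finset.sum_congr rfl fun l _ => Finset.sum_congr rfl fun l' _ => ?_
      rw [conj_e, ← e_add]
      congr 1
      push_cast
      rw [pow_add, pow_add]
      ring
    rw [Complex.ofReal_sum, Finset.sum_congr rfl fun n _ => h1 n]
    rw [Finset.sum_comm]
    refine Finset.sum_congr rfl fun l _ => ?_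
    rw [Finset.sum_comm]
    rfl
  have hbnd : ∀ᶠ N : ℕ in atTop, ∑ n ∈ range N, ‖R n‖ ^ 2 ≤ 2 * L * N := by
    have h1 : ∀ᶠ N : ℕ in atTop, ∀ l ∈ range L, ∀ l' ∈ range L, l ≠ l' →
        ‖W b (h * ((b : ℤ) ^ (v * l) - (b : ℤ) ^ (v * l'))) N z‖ ≤ 1 / L * N := by
      rw [Filter.eventually_all_finset]
      intro l _
      rw [Filter.eventually_all_finset]
      intro l' _
      by_cases hll : l = l'
      · exact Filter.Eventually.of_forall fun N h => absurd hll h
      · have h2 : h * ((b : ℤ) ^ (v * l) - (b : ℤ) ^ (v * l')) ≠ 0 := by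
          apply mul_ne_zero hh
          rw [sub_ne_zero]
          intro h3
          have h4 : b ^ (v * l) = b ^ (v * l') := by exact_mod_cast h3
          have h5 := Nat.pow_right_injective hb h4
          exact hll (Nat.eq_of_mul_eq_mul_left (by omega) h5)
        filter_upwards [H _ h2 (1 / L) (by positivity)] with N hN _
        exact hN
    filter_upwards [h1] with N hN
    have h2 : ∑ n ∈ range N, ‖R n‖ ^ 2 = ‖(((∑ n ∈ range N, ‖R n‖ ^ 2 : ℝ)) : ℂ)‖ := by
      rw [Complex.norm_real, Real.norm_of_nonneg]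
      exact Finset.sum_nonneg fun n _ => by positivity
    rw [h2, hexp]
    have h3 : ∀ l ∈ range L, ∀ l' ∈ range L,
        ‖W b (h * ((b : ℤ) ^ (v * l) - (b : ℤ) ^ (v * l'))) N z‖ ≤
          (if l = l' then (N : ℝ) else 0) + 1 / L * N := by
      intro l hl l' hl'
      have hN0 : (0 : ℝ) ≤ 1 / L * N := by positivity
      split_ifs with hll
      · have h4 : ‖W b (h * ((b : ℤ) ^ (v * l) - (b : ℤ) ^ (v * l'))) N z‖ ≤ N := by
          rw [W_sum]
          refine (norm_sum_le _ _).trans (le_of_eq ?_)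
          simp only [norm_e]
          rw [Finset.sum_const, card_range, nsmul_eq_mul, mul_one]
        linarith
      · linarith [hN l hl l' hl' hll]
    refine (norm_sum_le _ _).trans ?_
    refine (Finset.sum_le_sum fun l hl => (norm_sum_le _ _).trans
      (Finset.sum_le_sum fun l' hl' => h3 l hl l' hl')).trans (le_of_eq ?_)
    simp only [Finset.sum_add_distrib, Finset.sum_ite_eq, Finset.sum_const, card_range,
      nsmul_eq_mul]
    rw [Finset.sum_congr rfl fun l hl => if_pos hl, Finset.sum_const, card_range, nsmul_eq_mul]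
    field_simp
    ring
  have hvt : Tendsto (fun M : ℕ => v * M) atTop atTop := by
    rw [tendsto_atTop]
    intro m
    filter_upwards [eventually_ge_atTop m] with M hM
    nlinarith
  have hM2 : ∀ᶠ M : ℕ in atTop, 4 * (L : ℝ) / δ ≤ M :=
    tendsto_natCast_atTop_atTop.eventually_ge_atTop _
  filter_upwards [hvt.eventually hbnd, hM2] with M hM1 hM2
  rw [hWa]
  have h1 := hCS M
  have h2 : ‖∑ m ∈ range M, S m‖ ^ 2 ≤ (δ / 2 * L * M) ^ 2 := by
    have h3 : (M : ℝ) * ∑ n ∈ range (v * M), ‖R n‖ ^ 2 ≤ M * (2 * L * ((v * M : ℕ) : ℝ)) :=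
      mul_le_mul_of_nonneg_left hM1 (Nat.cast_nonneg _)
    have h4 : (M : ℝ) * (2 * L * ((v * M : ℕ) : ℝ)) = 8 * v * (L * M ^ 2 / 4) := by
      push_cast; ring
    have h5 : 8 * v * (L * (M : ℝ) ^ 2 / 4) ≤ δ ^ 2 * L * (L * M ^ 2 / 4) :=
      mul_le_mul_of_nonneg_right hL (by positivity)
    have h6 : δ ^ 2 * L * (L * (M : ℝ) ^ 2 / 4) = (δ / 2 * L * M) ^ 2 := by ring
    linarith
  have h3 : ‖∑ m ∈ range M, S m‖ ≤ δ / 2 * L * M :=
    (pow_le_pow_iff_left₀ (norm_nonneg _) (by positivity) two_ne_zero).1 h2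
  have h4 := hWS M
  rw [div_le_iff₀ hδ] at hM2
  have h5 : L * ‖∑ m ∈ range M, a m‖ ≤ L * (δ * M) := by
    have h6 : 2 * (L : ℝ) ^ 2 ≤ δ / 2 * L * M := by nlinarith
    have h7 : L * (δ * M) = δ / 2 * L * M + δ / 2 * L * M := by ring
    linarith
  exact le_of_mul_le_mul_left h5 hL0

/-- normality in all bases from equidistribution in `b` and in the independent bases -/
theorem all_bases (b : ℕ) (hb : 2 ≤ b) (z : ℝ) (H1 : Wn b z)
    (H2 : ∀ g : ℕ, 2 ≤ g → (∀ u v : ℕ, 1 ≤ u → g ^ u ≠ b ^ v) → Wn g z) :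
    ∀ g : ℕ, 2 ≤ g → Nrm g z := by
  intro g hg
  apply normal_of_weyl g hg
  by_cases hind : ∀ u v : ℕ, 1 ≤ u → g ^ u ≠ b ^ v
  · exact H2 g hg hind
  · push Not at hind
    obtain ⟨u, v, hu, huv⟩ := hind
    have hv : 1 ≤ v := by
      by_contra hcon
      have h1 : v = 0 := by omega
      rw [h1, pow_zero] at huv
      have h2 : 1 < g ^ u := Nat.one_lt_pow (by omega) (by omega)
      omega
    apply wn_of_pow g u hg hu
    rw [huv]
    exact wn_pow b v hb hv z H1

end Pool.Agent.Helper5.PiAbs
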