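import Mathlib
import Pool.Agent.Helper5.PiAbs.Dep

/-!
Few changes suffice, for all bases at once.
-/

set_option autoImplicit false

open Finset Filter Topology

namespace Pool.Agent.Helper5.PiAbs

open Pool.Agent.Helper5.PiFew
open Pool.Agent.H332R2.Lit (e e_add norm_e conj_e norm_one_sub_e)
open Pool.Agent.Q77.Cos (W)
open Pool.Agent.Q77.Few (Nrm Wn normal_of_weyl)

theorem upper2 (b : ℕ) (hb : 2 ≤ b) (f : ℕ → ℝ)
    (hf : Tendsto (fun N : ℕ => f N * Real.log N / N) atTop atTop)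
    (Y : Set (ℕ → Fin b)) (hY : Y.Countable) (X : Set (ℝ × ℝ)) (hX : X.Countable)
    (hXi : ∀ x ∈ X, Irrational x.1 ∧ ¬ Liouville x.1) :
    ∃ A : Set ℕ, (∀ᶠ N : ℕ in atTop, (({j : ℕ | j < N ∧ j ∈ A}.ncard : ℕ) : ℝ) ≤ f N) ∧
      ∀ d ∈ Y, ∀ x ∈ X, ∀ g : ℕ, 2 ≤ g → Nrm g (x.1 * Real.ofDigits (chg A d) + x.2) := by
  classical
  obtain ⟨p, hp0, hp1, hp, hcount⟩ := densities f hf
  set GG : Set ℕ := {g | 2 ≤ g ∧ (g = b ∨ ∀ u v : ℕ, 1 ≤ u → g ^ u ≠ b ^ v)} with hGG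
  set TT : Set (ℕ × ℤ × (ℝ × ℝ) × (ℕ → Fin b)) := GG ×ˢ (({0}ᶜ : Set ℤ) ×ˢ (X ×ˢ Y)) with hTT
  have hTc : TT.Countable :=
    (Set.to_countable _).prod ((Set.to_countable _).prod (hX.prod hY))
  have hfnn : ∀ᶠ N : ℕ in atTop, 0 ≤ f N := by
    filter_upwards [hcount] with N hN
    refine le_trans (Finset.sum_nonneg fun i _ => ?_) hN
    have := hp0 i
    positivity
  rcases TT.eq_empty_or_nonempty with hemp | hne
  · refine ⟨∅, ?_, ?_⟩
    · filter_upwards [hfnn] with N hN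
      simpa using hN
    · intro d hd x hx
      exfalso
      have : (b, (1 : ℤ), x, d) ∈ TT := by
        rw [hTT]
        exact ⟨⟨hb, Or.inl rfl⟩, by simp, hx, hd⟩
      rw [hemp] at this
      exact this
  obtain ⟨G, hG⟩ := hTc.exists_eq_range hne
  have hgm : ∀ l, G l ∈ TT := fun l => by rw [hG]; exact ⟨l, rfl⟩
  set gg : ℕ → ℕ := fun l => (G l).1 with hgg
  set hh : ℕ → ℤ := fun l => (G l).2.1 with hhd
  set xx : ℕ → ℝ := fun l => (G l).2.2.1.1 with hxx
  set cc : ℕ → ℝ := fun l => (G l).2.2.1.2 with hcc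
  set dd : ℕ → ℕ → Fin b := fun l => (G l).2.2.2 with hdd
  have hh0 : ∀ l, hh l ≠ 0 := fun l => (hgm l).2.1
  have hmeas : ∀ l, ∃ n₀ : ℕ, ∀ q : ℤ, q ≠ 0 → 1 / (2 * |(q : ℝ)|) ^ n₀ ≤ dn (q * xx l) := by
    intro l
    obtain ⟨h1, h2⟩ := hXi _ (hgm l).2.2.1
    exact measure_of_not_liouville _ h1 h2
  choose nn hnn using hmeas
  obtain ⟨s, hs, hP⟩ := diag (fun S i => 0 < p i ∧
      ∀ l < S, Smg b (gg l) (xx l) (hh l) (p i) i (1 / (4 * (S : ℝ) ^ 3))) (by
    intro S hS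
    have hS0 : (0 : ℝ) < S := by exact_mod_cast hS
    have h1 : ∀ᶠ i : ℕ in atTop, 0 < p i := by
      filter_upwards [hp.eventually_gt_atTop 0] with i hi
      by_contra hcon
      have h2 : p i = 0 := le_antisymm (not_lt.1 hcon) (hp0 i)
      rw [h2, zero_mul] at hi
      exact lt_irrefl _ hi
    have h2 : ∀ᶠ i : ℕ in atTop, ∀ l ∈ range S,
        Smg b (gg l) (xx l) (hh l) (p i) i (1 / (4 * (S : ℝ) ^ 3)) := by
      rw [Filter.eventually_all_finset]
      intro l _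
      rcases (hgm l).1.2 with hgl | hgl
      · have hgl' : gg l = b := hgl
        rw [hgl']
        filter_upwards [moment_small b hb (xx l) (nn l) (hnn l) (hh l) (hh0 l) p hp0 hp1 hp
          (1 / (4 * (S : ℝ) ^ 3)) (by positivity)] with i hi
        exact Smg_self b hb _ _ _ _ _ hi
      · have hx0 : xx l ≠ 0 := by
          have h3 := (hXi _ (hgm l).2.2.1).1
          exact h3.ne_zero
        exact small_indep b (gg l) hb (hgm l).1.1 hgl (xx l) hx0 (nn l) (hnn l) (hh l) (hh0 l) p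
          hp0 hp1 hp _ (by positivity)
    filter_upwards [h1, h2] with i h3 h4
    exact ⟨h3, fun l hl => h4 l (mem_range.2 hl)⟩)
  obtain ⟨A, hA1, hA2⟩ := build2 b hb p hp0 hp1 s gg hh xx cc dd hP
  refine ⟨A, ?_, ?_⟩
  · filter_upwards [hcount] with N hN
    refine le_trans ?_ hN
    refine le_trans ?_ (hA1 (Nat.sqrt N + 1))
    have h5 : N < (Nat.sqrt N + 1) ^ 2 := Nat.lt_succ_sqrt' N
    have hsub : {j : ℕ | j < N ∧ j ∈ A} ⊆ {j : ℕ | j < (Nat.sqrt N + 1) ^ 2 ∧ j ∈ A} := by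
      rintro j ⟨h1, h2⟩
      exact ⟨lt_trans h1 h5, h2⟩
    have hfin : {j : ℕ | j < (Nat.sqrt N + 1) ^ 2 ∧ j ∈ A}.Finite :=
      (Set.finite_lt_nat _).subset fun j hj => hj.1
    exact_mod_cast Set.ncard_le_ncard hsub hfin
  · intro d hd x hx
    have key : ∀ g ∈ GG, Wn g (x.1 * Real.ofDigits (chg A d) + x.2) := by
      intro g hgG h hh1 δ hδ
      have hg := hgG.1
      have hmem : (g, h, x, d) ∈ TT := ⟨hgG, hh1, hx, hd⟩
      rw [hG] at hmem
      obtain ⟨l, hl⟩ := hmem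
      have e0 : gg l = g := by rw [hgg]; simp only [hl]
      have e1 : hh l = h := by rw [hhd]; simp only [hl]
      have e2 : xx l = x.1 := by rw [hxx]; simp only [hl]
      have e3 : cc l = x.2 := by rw [hcc]; simp only [hl]
      have e4 : dd l = d := by rw [hdd]; simp only [hl]
      apply weyl_of_blocks2 b g hb hg h x.1 x.2 _ _ δ hδ
      intro δ hδ
      have h1 : ∀ᶠ i : ℕ in atTop, 2 / δ ≤ (s i : ℝ) :=
        (tendsto_natCast_atTop_atTop.comp hs).eventually_ge_atTop _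
      have h2 : ∀ᶠ i : ℕ in atTop,
          2 * (2 * Real.pi * |(h : ℝ) * x.1| * g) ≤ δ * ((2 * i + 1 : ℕ) : ℝ) := by
        have h3 : Tendsto (fun i : ℕ => δ * ((2 * i + 1 : ℕ) : ℝ)) atTop atTop := by
          apply Tendsto.const_mul_atTop hδ
          apply tendsto_natCast_atTop_atTop.comp
          rw [tendsto_atTop]
          intro m
          filter_upwards [eventually_ge_atTop m] with i hi
          omega
        exact h3.eventually_ge_atTop _
      filter_upwards [h1, h2, hs.eventually_gt_atTop l, hs.eventually_ge_atTop 1] with i h3 h4 h5 h6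
      obtain ⟨A', hA'1, hA'2⟩ := hA2 i l h5
      rw [e0, e1, e2, e3, e4] at hA'2
      have hclose : |Real.ofDigits (chg A d) - Real.ofDigits (chg A' d)| ≤
          ((b : ℝ) ^ ((i + 1) ^ 2))⁻¹ := by
        apply Real.abs_ofDigits_sub_ofDigits_le
        intro j hj
        have h7 := hA'1 j hj
        by_cases h8 : j ∈ A
        · rw [chg_mem _ _ _ h8, chg_mem _ _ _ (h7.1 h8)]
        · rw [chg_notMem _ _ _ h8, chg_notMem _ _ _ (fun h9 => h8 (h7.2 h9))]
      have h7 := T2_close b g hb hg h x.1 x.2 i _ _ hclose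
      have hs0 : (0 : ℝ) < s i := by exact_mod_cast h6
      have h8 : ((2 * i + 1 : ℕ) : ℝ) / s i ≤ δ / 2 * ((2 * i + 1 : ℕ) : ℝ) := by
        rw [div_le_iff₀ hs0]
        rw [div_le_iff₀ hδ] at h3
        have h9 : (0 : ℝ) ≤ ((2 * i + 1 : ℕ) : ℝ) := Nat.cast_nonneg _
        nlinarith
      linarith
    exact all_bases b hb _ (key b ⟨hb, Or.inl rfl⟩) (fun g hg hind => key g ⟨hg, Or.inr hind⟩)

end Pool.Agent.Helper5.PiAbs
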